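import Mathlib
import Pool.Agent.H410R3.KS.Circ

/-!
# Bumps with finitely many zeros in a ball
-/

open Set Filter Topology
open scoped ContDiff

namespace Pool.Agent.H410R3.TU

open Pool.Agent.H410R3.KS (PP)

/-- the second factor of the local model -/
abbrev FS (d : ℕ) : Type := EuclideanSpace ℝ (Fin (d + 1))
/-- the local model -/
abbrev WW (d : ℕ) : Type := ℝ × FS d
/-- the unit vector along which the maps move the points -/
noncomputable def uu (d : ℕ) : FS d := EuclideanSpace.single 0 1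

theorem norm_uu (d : ℕ) : ‖uu d‖ = 1 := by simp [uu]

/-- the radii of the balls -/
noncomputable def eta (n : ℕ) : ℝ := (1 / 2) ^ (n + 5)
/-- the first coordinates of the centres -/
noncomputable def xi (n : ℕ) : ℝ := 12 * eta n
/-- the zeros -/
noncomputable def tj (n j : ℕ) : ℝ := eta n * (j / (n + 1))
/-- the second coordinates of the centres as functions of the parameter -/
noncomputable def zeta (s : ℝ) : ℝ := (1 + Real.cos (Real.pi * s)) / 2
/-- the centres -/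
noncomputable def cc {d : ℕ} (n : ℕ) (t : ℝ) : WW d := (xi n, t • uu d)

theorem eta_pos (n : ℕ) : 0 < eta n := by unfold eta; positivity

theorem eta_le (n : ℕ) : eta n ≤ 1 / 32 := by
  unfold eta
  rw [pow_add]
  have : ((1 : ℝ) / 2) ^ n ≤ 1 := pow_le_one₀ (by norm_num) (by norm_num)
  nlinarith

theorem eta_lt {n m : ℕ} (h : n < m) : eta m ≤ eta n / 2 := by
  have h1 : eta m ≤ eta (n + 1) := by
    unfold eta
    exact pow_le_pow_of_le_one (by norm_num) (by norm_num) (by omega)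
  have h2 : eta (n + 1) = eta n / 2 := by
    unfold eta
    rw [show n + 1 + 5 = (n + 5) + 1 by ring, pow_succ]; ring
  linarith

theorem slab_disj {X : ℝ} {n m : ℕ} (h1 : |X - xi n| ≤ 2 * eta n) (h2 : |X - xi m| ≤ 2 * eta m) :
    n = m := by
  unfold xi at h1 h2
  rw [abs_le] at h1 h2
  have p1 := eta_pos n
  have p2 := eta_pos m
  rcases lt_trichotomy n m with h | h | h
  · have := eta_lt h
    linarith [h1.1, h2.2]
  · exact h
  · have := eta_lt h
    linarith [h2.1, h1.2]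

theorem zeta_mem (s : ℝ) : zeta s ∈ Icc (0:ℝ) 1 := by
  unfold zeta
  have h1 := Real.neg_one_le_cos (Real.pi * s)
  have h2 := Real.cos_le_one (Real.pi * s)
  constructor <;> linarith

theorem zeta_contDiff : ContDiff ℝ ∞ zeta := by
  unfold zeta
  exact (contDiff_const.add (Real.contDiff_cos.comp (contDiff_const.mul contDiff_id))).div_const 2

theorem zeta_periodic (s : ℝ) : zeta (s + 2) = zeta s := by
  unfold zeta
  rw [show Real.pi * (s + 2) = Real.pi * s + 2 * Real.pi by ring, Real.cos_add_two_pi]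

theorem xi_le (n : ℕ) : xi n ≤ 3 / 8 := by
  have := eta_le n
  unfold xi; linarith

theorem xi_pos (n : ℕ) : 0 < xi n := by
  have := eta_pos n
  unfold xi; linarith

theorem norm_cc {d : ℕ} (n : ℕ) {t : ℝ} (ht : t ∈ Icc (0:ℝ) 1) : ‖(cc n t : WW d)‖ ≤ 1 := by
  unfold cc
  rw [Prod.norm_def, max_le_iff]
  constructor
  · simp only [Real.norm_eq_abs, abs_of_pos (xi_pos n)]
    linarith [xi_le n]
  · simp only [norm_smul, norm_uu, mul_one, Real.norm_eq_abs]
    rw [abs_of_nonneg ht.1]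
    exact ht.2

/-- the bump -/
noncomputable def AN {d : ℕ} (n : ℕ) (v : WW d) : ℝ :=
  expNegInvGlue (1 - ((eta n)⁻¹ * v.1) ^ 2) * expNegInvGlue (1 - ‖(eta n)⁻¹ • v.2‖ ^ 2) *
    (‖v.2‖ ^ 2 + (∏ j ∈ Finset.range (n + 1), (v.1 - tj n j)) ^ 2)

theorem AN_contDiff {d : ℕ} (n : ℕ) : ContDiff ℝ ∞ (AN (d := d) n) := by
  unfold AN
  refine ContDiff.mul (ContDiff.mul ?_ ?_) ?_
  · exact expNegInvGlue.contDiff.comp (contDiff_const.sub ((contDiff_const.mul contDiff_fst).pow 2))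
  · exact expNegInvGlue.contDiff.comp (contDiff_const.sub ((contDiff_snd.const_smul _).norm_sq ℝ))
  · refine ContDiff.add (contDiff_snd.norm_sq ℝ) (ContDiff.pow ?_ 2)
    exact contDiff_prod fun j _ => contDiff_fst.sub contDiff_const

theorem AN_nonneg {d : ℕ} (n : ℕ) (v : WW d) : 0 ≤ AN n v := by
  unfold AN
  have h1 := expNegInvGlue.nonneg (1 - ((eta n)⁻¹ * v.1) ^ 2)
  have h2 := expNegInvGlue.nonneg (1 - ‖(eta n)⁻¹ • v.2‖ ^ 2)
  positivity

/-- the set of the zeros of the `n`-th bump in the ball -/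
def ZZ {d : ℕ} (n : ℕ) : Set (WW d) := {v | v.2 = 0 ∧ ∃ j ∈ Finset.range (n + 1), v.1 = tj n j}

theorem AN_ne_zero_iff {d : ℕ} (n : ℕ) (v : WW d) : AN n v ≠ 0 ↔ ‖v‖ < eta n ∧ v ∉ ZZ n := by
  have he := eta_pos n
  have e1 : expNegInvGlue (1 - ((eta n)⁻¹ * v.1) ^ 2) ≠ 0 ↔ |v.1| < eta n := by
    rw [Ne, expNegInvGlue.zero_iff_nonpos, not_le, sub_pos, sq_lt_one_iff_abs_lt_one, abs_mul,
      abs_of_pos (inv_pos.2 he), inv_mul_lt_iff₀ he, mul_one]
  have e2 : expNegInvGlue (1 - ‖(eta n)⁻¹ • v.2‖ ^ 2) ≠ 0 ↔ ‖v.2‖ < eta n := by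
    rw [Ne, expNegInvGlue.zero_iff_nonpos, not_le, sub_pos, sq_lt_one_iff_abs_lt_one, abs_norm,
      norm_smul, Real.norm_of_nonneg (inv_pos.2 he).le, inv_mul_lt_iff₀ he, mul_one]
  have e3 : (‖v.2‖ ^ 2 + (∏ j ∈ Finset.range (n + 1), (v.1 - tj n j)) ^ 2 ≠ 0) ↔ v ∉ ZZ n := by
    rw [Ne, not_iff_not]
    constructor
    · intro h
      have hA : 0 ≤ ‖v.2‖ ^ 2 := sq_nonneg _
      have hB : 0 ≤ (∏ j ∈ Finset.range (n + 1), (v.1 - tj n j)) ^ 2 := sq_nonneg _
      have h1 : ‖v.2‖ ^ 2 = 0 := by linarith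
      have h2 : (∏ j ∈ Finset.range (n + 1), (v.1 - tj n j)) ^ 2 = 0 := by linarith
      refine ⟨by simpa using h1, ?_⟩
      obtain ⟨j, hj, hj2⟩ := Finset.prod_eq_zero_iff.1 (pow_eq_zero_iff (two_ne_zero) |>.1 h2)
      exact ⟨j, hj, by linarith⟩
    · rintro ⟨h1, j, hj, h2⟩
      rw [h1, Finset.prod_eq_zero hj (by rw [h2]; ring)]
      simp
  unfold AN
  rw [mul_ne_zero_iff, mul_ne_zero_iff, e1, e2, e3, Prod.norm_def, max_lt_iff, Real.norm_eq_abs]

/-- the bump with parameter -/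
noncomputable def AT {d : ℕ} (n : ℕ) (q : WW d × ℝ) : ℝ := AN n (q.1 - cc n (zeta q.2))

theorem AT_contDiff {d : ℕ} (n : ℕ) : ContDiff ℝ ∞ (AT (d := d) n) := by
  have h1 : ContDiff ℝ ∞ (fun q : WW d × ℝ => zeta q.2) := zeta_contDiff.comp contDiff_snd
  have h2 : ContDiff ℝ ∞ (fun q : WW d × ℝ => (cc n (zeta q.2) : WW d)) :=
    contDiff_const.prodMk (h1.smul contDiff_const)
  exact (AN_contDiff n).comp (contDiff_fst.sub h2)

theorem AT_nonneg {d : ℕ} (n : ℕ) (q : WW d × ℝ) : 0 ≤ AT n q := AN_nonneg n _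

theorem AT_zero {d : ℕ} (n : ℕ) (q : WW d × ℝ) (h : 3 / 2 ≤ ‖q.1‖) : AT n q = 0 := by
  by_contra hc
  have h1 := ((AN_ne_zero_iff n _).1 hc).1
  have h2 := norm_cc (d := d) n (zeta_mem q.2)
  have h3 := eta_le n
  have h4 := norm_sub_norm_le q.1 (cc n (zeta q.2))
  linarith

theorem AT_periodic {d : ℕ} (n : ℕ) (w : WW d) (s : ℝ) : AT n (w, s + 2) = AT n (w, s) := by
  unfold AT
  simp only [zeta_periodic]

theorem AT_bdd {d : ℕ} (n k : ℕ) : ∃ C, 0 ≤ C ∧ ∀ q, ‖iteratedFDeriv ℝ k (AT (d := d) n) q‖ ≤ C := by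
  have hc : Continuous (iteratedFDeriv ℝ k (AT (d := d) n)) :=
    (AT_contDiff n).continuous_iteratedFDeriv (by exact_mod_cast le_top)
  have hp : ∀ w : WW d, Function.Periodic (fun s => iteratedFDeriv ℝ k (AT (d := d) n) (w, s)) 2 := by
    intro w s
    have h := iteratedFDeriv_comp_add_right (𝕜 := ℝ) (f := AT (d := d) n) k ((0, 2) : WW d × ℝ)
      (w, s)
    simp only [Prod.mk_add_mk, add_zero] at h
    show iteratedFDeriv ℝ k (AT (d := d) n) (w, s + 2) = iteratedFDeriv ℝ k (AT (d := d) n) (w, s)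
    rw [← h]
    congr 1
    funext z
    obtain ⟨w', s'⟩ := z
    simp only [Prod.mk_add_mk, add_zero]
    exact AT_periodic n w' s'
  obtain ⟨C, hC⟩ := ((isCompact_closedBall (0 : WW d) 2).prod
    (isCompact_Icc (a := (0:ℝ)) (b := 2))).exists_bound_of_continuousOn hc.continuousOn
  refine ⟨max C 0, le_max_right _ _, fun q => ?_⟩
  obtain ⟨w, s⟩ := q
  by_cases hw : ‖w‖ ≤ 2
  · obtain ⟨z, hz, he⟩ := (hp w).exists_mem_Ico₀ two_pos s
    have he' : iteratedFDeriv ℝ k (AT (d := d) n) (w, s) = iteratedFDeriv ℝ k (AT (d := d) n) (w, z) := he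
    rw [he']
    exact (hC (w, z) ⟨by simpa using hw, Ico_subset_Icc_self hz⟩).trans (le_max_left _ _)
  · push Not at hw
    have h1 : AT (d := d) n =ᶠ[𝓝 (w, s)] fun _ => 0 := by
      have h2 : ∀ᶠ q : WW d × ℝ in 𝓝 (w, s), 2 < ‖q.1‖ :=
        (continuous_fst.norm.continuousAt).eventually_const_lt (by simpa using hw)
      filter_upwards [h2] with q hq
      exact AT_zero n q (by linarith)
    have h3 := h1.iteratedFDeriv ℝ k
    rw [h3.eq_of_nhds]
    have h4 : iteratedFDeriv ℝ k (fun _ : WW d × ℝ => (0:ℝ)) = 0 := iteratedFDeriv_fun_zero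
    rw [h4]
    simp

/-- bounds for the derivatives of the bumps -/
noncomputable def CA (d n k : ℕ) : ℝ := (AT_bdd (d := d) n k).choose

theorem CA_nonneg (d n k : ℕ) : 0 ≤ CA d n k := (AT_bdd (d := d) n k).choose_spec.1

theorem le_CA {d : ℕ} (n k : ℕ) (q : WW d × ℝ) : ‖iteratedFDeriv ℝ k (AT n) q‖ ≤ CA d n k :=
  (AT_bdd (d := d) n k).choose_spec.2 q

/-- the heights -/
noncomputable def eA (d n : ℕ) : ℝ :=
  (1 / 2) ^ (n + 5) / (1 + ∑ k ∈ Finset.range (n + 2), CA d n k * (1 + 2 ^ n) ^ k)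

theorem eA_den (d n : ℕ) :
    0 < 1 + ∑ k ∈ Finset.range (n + 2), CA d n k * (1 + 2 ^ n) ^ k := by
  have : 0 ≤ ∑ k ∈ Finset.range (n + 2), CA d n k * (1 + (2:ℝ) ^ n) ^ k :=
    Finset.sum_nonneg fun k _ => mul_nonneg (CA_nonneg d n k) (by positivity)
  linarith

theorem eA_pos (d n : ℕ) : 0 < eA d n := div_pos (by positivity) (eA_den d n)

theorem eA_bound (d : ℕ) {n k : ℕ} (h : k < n + 2) :
    eA d n * (CA d n k * (1 + 2 ^ n) ^ k) ≤ (1 / 2) ^ (n + 5) := by
  unfold eA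
  rw [div_mul_eq_mul_div, div_le_iff₀ (eA_den d n)]
  refine mul_le_mul_of_nonneg_left ?_ (by positivity)
  have := Finset.single_le_sum (f := fun k => CA d n k * (1 + (2:ℝ) ^ n) ^ k)
    (fun k _ => mul_nonneg (CA_nonneg d n k) (by positivity)) (Finset.mem_range.2 h)
  linarith

theorem hasSum5 : HasSum (fun n : ℕ => ((1:ℝ) / 2) ^ (n + 5)) (1 / 16) := by
  have h := hasSum_geometric_two.mul_right ((1:ℝ)/32)
  have e1 : (fun n : ℕ => ((1:ℝ) / 2) ^ (n + 5)) = fun n : ℕ => ((1:ℝ) / 2) ^ n * (1 / 32) := by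
    funext n
    rw [pow_add]; norm_num
  have e2 : (1:ℝ) / 16 = 2 * (1 / 32) := by norm_num
  rw [e1, e2]
  exact h

/-- `(p, w) ↦ (w, 2 ^ n * p n)` -/
noncomputable def LA (d n : ℕ) : (PP × WW d) →L[ℝ] (WW d × ℝ) :=
  (ContinuousLinearMap.snd ℝ PP (WW d)).prod
    ((2 ^ n : ℝ) • ((BoundedContinuousFunction.evalCLM ℝ n).comp
      (ContinuousLinearMap.fst ℝ PP (WW d))))

theorem LA_apply (d n : ℕ) (q : PP × WW d) : LA d n q = (q.2, 2 ^ n * q.1 n) := by
  simp [LA]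

theorem norm_LA_le (d n : ℕ) : ‖LA d n‖ ≤ 1 + 2 ^ n := by
  refine ContinuousLinearMap.opNorm_le_bound _ (by positivity) (fun q => ?_)
  rw [LA_apply]
  have h1 : ‖q.2‖ ≤ ‖q‖ := norm_snd_le q
  have h2 : ‖q.1 n‖ ≤ ‖q‖ := (q.1.norm_coe_le_norm n).trans (norm_fst_le q)
  have h0 := norm_nonneg q
  have h3 : (0:ℝ) < 2 ^ n := by positivity
  rw [Prod.norm_def, max_le_iff]
  constructor
  · simp only
    nlinarith
  · simp only [norm_mul, norm_pow, Real.norm_ofNat]
    nlinarith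

/-- the `n`-th term -/
noncomputable def tA (d n : ℕ) (q : PP × WW d) : ℝ := eA d n * AT n (LA d n q)

theorem tA_contDiff (d n : ℕ) : ContDiff ℝ ∞ (tA d n) := by
  have h := ContDiff.comp (g := fun q : WW d × ℝ => AT n q) (f := fun q : PP × WW d => LA d n q)
    (AT_contDiff n) (LA d n).contDiff
  exact contDiff_const.mul h

theorem tA_bound (d n k : ℕ) (q : PP × WW d) :
    ‖iteratedFDeriv ℝ k (tA d n) q‖ ≤ eA d n * (CA d n k * (1 + 2 ^ n) ^ k) := by
  have h2 : ContDiff ℝ ∞ (eA d n • AT (d := d) n) := contDiff_const.smul (AT_contDiff n)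
  have h3 : tA d n = (eA d n • AT (d := d) n) ∘ LA d n := by
    funext q; rfl
  rw [h3, (LA d n).iteratedFDeriv_comp_right h2 q (i := k) (by exact_mod_cast le_top)]
  refine (ContinuousMultilinearMap.norm_compContinuousLinearMap_le _ _).trans ?_
  rw [Finset.prod_const, Finset.card_univ, Fintype.card_fin, ← mul_assoc]
  have h4 : ‖iteratedFDeriv ℝ k (eA d n • AT (d := d) n) (LA d n q)‖ ≤ eA d n * CA d n k := by
    rw [iteratedFDeriv_const_smul_apply
      ((AT_contDiff n).of_le (by exact_mod_cast le_top)).contDiffAt,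
      norm_smul, Real.norm_of_nonneg (eA_pos d n).le]
    exact mul_le_mul_of_nonneg_left (le_CA n k _) (eA_pos d n).le
  exact mul_le_mul h4 (pow_le_pow_left₀ (norm_nonneg _) (norm_LA_le d n) k)
    (by positivity) (mul_nonneg (eA_pos d n).le (CA_nonneg d n k))

theorem tA_summable (d k : ℕ) : Summable fun n => eA d n * (CA d n k * (1 + 2 ^ n) ^ k) := by
  refine Summable.of_norm_bounded_eventually_nat hasSum5.summable ?_
  filter_upwards [eventually_ge_atTop k] with n hn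
  rw [Real.norm_of_nonneg (mul_nonneg (eA_pos d n).le (mul_nonneg (CA_nonneg d n k) (by positivity)))]
  exact eA_bound d (by omega)

/-- the displacement -/
noncomputable def RA (d : ℕ) (q : PP × WW d) : ℝ := ∑' n, tA d n q

theorem RA_contDiff (d : ℕ) : ContDiff ℝ ∞ (RA d) :=
  contDiff_tsum (v := fun k n => eA d n * (CA d n k * (1 + 2 ^ n) ^ k)) (fun n => tA_contDiff d n)
    (fun k _ => tA_summable d k) (fun k n q _ => tA_bound d n k q)

theorem tA_nonneg (d n : ℕ) (q : PP × WW d) : 0 ≤ tA d n q :=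
  mul_nonneg (eA_pos d n).le (AT_nonneg _ _)

theorem tA_le (d n : ℕ) (q : PP × WW d) : tA d n q ≤ (1 / 2) ^ (n + 5) := by
  have h := tA_bound d n 0 q
  rw [norm_iteratedFDeriv_zero, Real.norm_of_nonneg (tA_nonneg d n q)] at h
  exact h.trans (eA_bound d (by omega))

theorem tA_summable' (d : ℕ) (q : PP × WW d) : Summable fun n => tA d n q :=
  Summable.of_nonneg_of_le (fun n => tA_nonneg d n q) (fun n => tA_le d n q) hasSum5.summable

theorem RA_nonneg (d : ℕ) (q : PP × WW d) : 0 ≤ RA d q := tsum_nonneg fun n => tA_nonneg d n q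

theorem RA_le (d : ℕ) (q : PP × WW d) : RA d q ≤ 1 / 16 := by
  rw [← hasSum5.tsum_eq]
  exact (tA_summable' d q).tsum_le_tsum (fun n => tA_le d n q) hasSum5.summable

theorem RA_zero (d : ℕ) (p : PP) (w : WW d) (h : 3 / 2 ≤ ‖w‖) : RA d (p, w) = 0 := by
  have h1 : ∀ n, tA d n (p, w) = 0 := by
    intro n
    unfold tA
    rw [AT_zero n _ (by rw [LA_apply]; exact h), mul_zero]
  unfold RA
  simp [h1]

theorem AT_lip {d : ℕ} (n : ℕ) (q q' : WW d × ℝ) : |AT n q - AT n q'| ≤ CA d n 1 * ‖q - q'‖ := by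
  have h := Convex.norm_image_sub_le_of_norm_fderiv_le (𝕜 := ℝ) (f := AT (d := d) n) (C := CA d n 1)
    (s := Set.univ) (x := q') (y := q)
    (fun z _ => ((AT_contDiff n).differentiable (by simp)).differentiableAt) (fun z _ => ?_)
    convex_univ (mem_univ _) (mem_univ _)
  · simpa using h
  · have := le_CA n 1 z
    rwa [norm_iteratedFDeriv_one] at this

theorem RA_lip (d : ℕ) (p : PP) (w w' : WW d) :
    |RA d (p, w) - RA d (p, w')| ≤ 1 / 16 * ‖w - w'‖ := by
  unfold RA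
  rw [← (tA_summable' d _).tsum_sub (tA_summable' d _)]
  have h1 : HasSum (fun n : ℕ => ((1:ℝ) / 2) ^ (n + 5) * ‖w - w'‖) (1 / 16 * ‖w - w'‖) :=
    HasSum.mul_right _ hasSum5
  rw [← Real.norm_eq_abs (∑' _, _)]
  refine tsum_of_norm_bounded h1 fun n => ?_
  unfold tA
  rw [← mul_sub, norm_mul, Real.norm_of_nonneg (eA_pos d n).le, LA_apply, LA_apply]
  have h2 := AT_lip n (w, 2 ^ n * p n) (w', 2 ^ n * p n)
  have h3 : ‖(w, 2 ^ n * p n) - (w', 2 ^ n * p n)‖ = ‖w - w'‖ := by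
    rw [Prod.mk_sub_mk, sub_self, Prod.norm_def]
    simp
  rw [h3] at h2
  have h4 : eA d n * CA d n 1 ≤ (1 / 2) ^ (n + 5) := by
    have h := eA_bound d (n := n) (k := 1) (by omega)
    have h1 : CA d n 1 ≤ CA d n 1 * (1 + 2 ^ n) ^ 1 := by
      have := CA_nonneg d n 1
      have h2 : (0:ℝ) ≤ 2 ^ n := by positivity
      nlinarith
    exact (mul_le_mul_of_nonneg_left h1 (eA_pos d n).le).trans h
  calc eA d n * ‖AT n (w, 2 ^ n * p n) - AT n (w', 2 ^ n * p n)‖
      ≤ eA d n * (CA d n 1 * ‖w - w'‖) := mul_le_mul_of_nonneg_left h2 (eA_pos d n).le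
    _ = (eA d n * CA d n 1) * ‖w - w'‖ := by ring
    _ ≤ _ := mul_le_mul_of_nonneg_right h4 (norm_nonneg _)

end Pool.Agent.H410R3.TU
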