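import Mathlib
import Pool.Agent.H410R3.KS.Defs

/-!
# Extension by the identity of maps supported in a chart
-/

set_option linter.unusedSectionVars false

open Set Filter Topology
open scoped Manifold ContDiff

namespace Pool.Agent.H410R3.TU

open Pool.Agent.H410R3.KS (DiffR DiffR.map TopConj)

section ext

variable {M : Type} [TopologicalSpace M] {W : Type} [NormedAddCommGroup W] [NormedSpace ℝ W]

open Classical in
/-- extension by the identity -/
noncomputable def ext (e : OpenPartialHomeomorph M W) (f : W → W) (x : M) : M :=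
  if x ∈ e.source then e.symm (f (e x)) else x

theorem ext_in (e : OpenPartialHomeomorph M W) (f : W → W) {x : M} (hx : x ∈ e.source) :
    ext e f x = e.symm (f (e x)) := by
  unfold ext; rw [if_pos hx]

theorem ext_out (e : OpenPartialHomeomorph M W) (f : W → W) {x : M} (hx : x ∉ e.source) :
    ext e f x = x := by
  unfold ext; rw [if_neg hx]

theorem ext_symm (e : OpenPartialHomeomorph M W) (f : W → W) {w : W} (hw : w ∈ e.target) :
    ext e f (e.symm w) = e.symm (f w) := by
  rw [ext_in e f (e.map_target hw), e.right_inv hw]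

/-- the identity outside the ball of radius `5` -/
def Off (f : W → W) : Prop := ∀ w, 5 ≤ ‖w‖ → f w = w

variable {e : OpenPartialHomeomorph M W} (hK : Metric.closedBall (0:W) 5 ⊆ e.target)

include hK in
theorem maps_target {f : W → W} (hf : Function.Injective f) (ho : Off f) {w : W}
    (hw : w ∈ e.target) : f w ∈ e.target := by
  by_cases h : 5 ≤ ‖w‖
  · rw [ho w h]; exact hw
  · apply hK
    rw [mem_closedBall_zero_iff]
    by_contra hc
    push Not at hc
    have h1 := hf (ho (f w) hc.le)
    rw [h1] at hc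
    exact h hc.le

/-- the compact set outside which the extensions are the identity -/
def KK (e : OpenPartialHomeomorph M W) : Set M := e.symm '' Metric.closedBall (0:W) 5

theorem ext_off {f : W → W} (ho : Off f) {x : M} (hx : x ∉ KK e) : ext e f x = x := by
  by_cases h : x ∈ e.source
  · rw [ext_in e f h]
    have h1 : 5 ≤ ‖e x‖ := by
      by_contra hc
      push Not at hc
      exact hx ⟨e x, by simpa using hc.le, e.left_inv h⟩
    rw [ho _ h1, e.left_inv h]
  · exact ext_out e f h

include hK in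
theorem ext_comp {f g : W → W} (hg : Function.Injective g) (ho : Off g) (x : M) :
    ext e f (ext e g x) = ext e (f ∘ g) x := by
  by_cases h : x ∈ e.source
  · rw [ext_in e g h, ext_in e _ h, ext_symm e f (maps_target hK hg ho (e.map_source h))]
    rfl
  · rw [ext_out e g h, ext_out e f h, ext_out e (f ∘ g) h]

theorem ext_id (x : M) : ext e id x = x := by
  by_cases h : x ∈ e.source
  · rw [ext_in e _ h, id, e.left_inv h]
  · exact ext_out e _ h

theorem Off.symm {f : W ≃ W} (ho : Off f) : Off f.symm := by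
  intro w hw
  rw [Equiv.symm_apply_eq, ho w hw]

/-- extension of a bijection -/
noncomputable def extE (f : W ≃ W) (ho : Off f) : M ≃ M where
  toFun := ext e f
  invFun := ext e f.symm
  left_inv x := by
    rw [ext_comp hK f.injective ho, Equiv.symm_comp_self, ext_id]
  right_inv x := by
    rw [ext_comp hK f.symm.injective ho.symm, Equiv.self_comp_symm, ext_id]

theorem extE_apply (f : W ≃ W) (ho : Off f) (x : M) : extE hK f ho x = ext e f x := rfl

theorem extE_symm_apply (f : W ≃ W) (ho : Off f) (x : M) :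
    (extE hK f ho).symm x = ext e f.symm x := rfl

include hK in
theorem KK_compact [FiniteDimensional ℝ W] : IsCompact (KK e) :=
  (isCompact_closedBall (0:W) 5).image_of_continuousOn (e.continuousOn_symm.mono hK)

include hK in
theorem KK_sub : KK e ⊆ e.source := by
  rintro _ ⟨w, hw, rfl⟩
  exact e.map_target (hK hw)

include hK in
theorem ext_continuous [FiniteDimensional ℝ W] [T2Space M] {f : W → W} (hf : Continuous f)
    (hinj : Function.Injective f) (ho : Off f) : Continuous (ext e f) := by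
  rw [continuous_iff_continuousAt]
  intro x
  by_cases h : x ∈ e.source
  · have h1 : ContinuousAt (fun x => e.symm (f (e x))) x := by
      have h2 := maps_target hK hinj ho (e.map_source h)
      exact ContinuousAt.comp (g := e.symm) (e.continuousAt_symm h2)
        (ContinuousAt.comp (g := f) hf.continuousAt (e.continuousAt h))
    refine h1.congr ?_
    filter_upwards [e.open_source.mem_nhds h] with y hy
    exact (ext_in e f hy).symm
  · have h1 : x ∉ KK e := fun hc => h (KK_sub hK hc)
    refine continuousAt_id.congr ?_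
    filter_upwards [(KK_compact hK).isClosed.isOpen_compl.mem_nhds h1] with y hy
    exact (ext_off ho hy).symm

section smooth

variable {E H : Type} [NormedAddCommGroup E] [NormedSpace ℝ E] [TopologicalSpace H]
  {I : ModelWithCorners ℝ E H} [ChartedSpace H M]

include hK in
theorem ext_smooth [FiniteDimensional ℝ W] [T2Space M] {P : Type} [NormedAddCommGroup P]
    [NormedSpace ℝ P] (hs1 : ContMDiffOn I 𝓘(ℝ, W) ∞ e e.source)
    (hs2 : ContMDiffOn 𝓘(ℝ, W) I ∞ e.symm e.target) (F : P × W → W) (hF : ContDiff ℝ ∞ F)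
    (hinj : ∀ p, Function.Injective (fun w => F (p, w))) (ho : ∀ p, Off (fun w => F (p, w))) :
    ContMDiff (𝓘(ℝ, P).prod I) I ∞ (fun q : P × M => ext e (fun w => F (q.1, w)) q.2) := by
  rintro ⟨p0, x0⟩
  by_cases h : x0 ∈ e.source
  · have h2 : F (p0, e x0) ∈ e.target := maps_target hK (hinj p0) (ho p0) (e.map_source h)
    have s1 : ContMDiffAt I 𝓘(ℝ, W) ∞ e x0 := hs1.contMDiffAt (e.open_source.mem_nhds h)
    have s2 : ContMDiffAt (𝓘(ℝ, P).prod I) I ∞ (fun q : P × M => q.2) (p0, x0) := contMDiffAt_snd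
    have s3 : ContMDiffAt (𝓘(ℝ, P).prod I) 𝓘(ℝ, P) ∞ (fun q : P × M => q.1) (p0, x0) :=
      contMDiffAt_fst
    have s4 : ContMDiffAt (𝓘(ℝ, P).prod I) 𝓘(ℝ, W) ∞ (fun q : P × M => e q.2) (p0, x0) :=
      ContMDiffAt.comp (g := e) (f := fun q : P × M => q.2) (p0, x0) s1 s2
    have s5 := s3.prodMk_space s4
    have s6 : ContMDiffAt (𝓘(ℝ, P).prod I) 𝓘(ℝ, W) ∞ (fun q : P × M => F (q.1, e q.2)) (p0, x0) :=
      ContMDiffAt.comp (g := F) (f := fun q : P × M => (q.1, e q.2)) (p0, x0)
        hF.contMDiff.contMDiffAt s5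
    have s7 : ContMDiffAt 𝓘(ℝ, W) I ∞ e.symm (F (p0, e x0)) :=
      hs2.contMDiffAt (e.open_target.mem_nhds h2)
    have s8 : ContMDiffAt (𝓘(ℝ, P).prod I) I ∞ (fun q : P × M => e.symm (F (q.1, e q.2))) (p0, x0) :=
      ContMDiffAt.comp (g := e.symm) (f := fun q : P × M => F (q.1, e q.2)) (p0, x0) s7 s6
    refine s8.congr_of_eventuallyEq ?_
    have h3 : ∀ᶠ q : P × M in 𝓝 (p0, x0), q.2 ∈ e.source :=
      continuous_snd.continuousAt.eventually_mem (e.open_source.mem_nhds h)
    filter_upwards [h3] with q hq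
    exact ext_in e _ hq
  · have h1 : x0 ∉ KK e := fun hc => h (KK_sub hK hc)
    have s2 : ContMDiffAt (𝓘(ℝ, P).prod I) I ∞ (fun q : P × M => q.2) (p0, x0) := contMDiffAt_snd
    refine s2.congr_of_eventuallyEq ?_
    have h3 : ∀ᶠ q : P × M in 𝓝 (p0, x0), q.2 ∈ (KK e)ᶜ :=
      continuous_snd.continuousAt.eventually_mem
        ((KK_compact hK).isClosed.isOpen_compl.mem_nhds h1)
    filter_upwards [h3] with q hq
    exact ext_off (ho q.1) hq

/-- charts onto large sets -/
theorem exists_chart [FiniteDimensional ℝ W] [FiniteDimensional ℝ E] [I.Boundaryless]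
    [IsManifold I ∞ M] (x0 : M) (hdim : Module.finrank ℝ E = Module.finrank ℝ W) :
    ∃ e : OpenPartialHomeomorph M W, Metric.closedBall (0:W) 5 ⊆ e.target ∧
      ContMDiffOn I 𝓘(ℝ, W) ∞ e e.source ∧ ContMDiffOn 𝓘(ℝ, W) I ∞ e.symm e.target := by
  have hopen : IsOpen (extChartAt I x0).target := isOpen_extChartAt_target x0
  set u0 : E := extChartAt I x0 x0 with hu0
  have hu : u0 ∈ (extChartAt I x0).target := mem_extChartAt_target x0
  obtain ⟨ρ, hρ, hball⟩ := Metric.isOpen_iff.1 hopen u0 hu
  set L : E ≃L[ℝ] W := ContinuousLinearEquiv.ofFinrankEq hdim with hL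
  set c : ℝ := (5 * ‖(L.symm : W →L[ℝ] E)‖ + 1) / ρ with hc
  have hcp : 0 < c := by positivity
  let A : E ≃ₜ W := (Homeomorph.addRight (-u0)).trans (L.toHomeomorph.trans
    (Homeomorph.smulOfNeZero c hcp.ne'))
  have hA : ∀ u, A u = c • L (u + -u0) := fun u => rfl
  have hAs : ∀ w, A.symm w = L.symm (c⁻¹ • w) + u0 := by
    intro w
    rw [Homeomorph.symm_apply_eq, hA]
    simp [smul_smul, mul_inv_cancel₀ hcp.ne']
  have hAsm : ContDiff ℝ ∞ A := by
    have : ContDiff ℝ ∞ (fun u => c • L (u + -u0)) :=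
      (L.contDiff.comp (contDiff_id.add contDiff_const)).const_smul c
    exact this
  have hAssm : ContDiff ℝ ∞ A.symm := by
    have : ContDiff ℝ ∞ (fun w => L.symm (c⁻¹ • w) + u0) :=
      (L.symm.contDiff.comp (contDiff_id.const_smul c⁻¹)).add contDiff_const
    have e : (A.symm : W → E) = fun w => L.symm (c⁻¹ • w) + u0 := funext hAs
    rw [e]; exact this
  let e : OpenPartialHomeomorph M W :=
    (chartAt H x0).transHomeomorph ((I.toHomeomorph).trans A)
  have he : ∀ x, e x = A (extChartAt I x0 x) := fun x => rfl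
  have hes : ∀ w, e.symm w = (extChartAt I x0).symm (A.symm w) := fun w => rfl
  have hsrc : e.source = (chartAt H x0).source := rfl
  have htgt : ∀ w, w ∈ e.target ↔ A.symm w ∈ (extChartAt I x0).target := by
    intro w
    have e1 : e.target = ((I.toHomeomorph).trans A).symm ⁻¹' (chartAt H x0).target := rfl
    rw [e1, extChartAt_target]
    simp only [mem_preimage, Homeomorph.symm_trans_apply, mem_inter_iff]
    have e2 : I.toHomeomorph.symm (A.symm w) = I.symm (A.symm w) := rfl
    rw [e2, I.range_eq_univ]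
    simp
  refine ⟨e, ?_, ?_, ?_⟩
  · intro w hw
    rw [htgt, hAs]
    apply hball
    rw [mem_closedBall_zero_iff] at hw
    rw [Metric.mem_ball, dist_eq_norm, add_sub_cancel_right]
    calc ‖L.symm (c⁻¹ • w)‖ ≤ ‖(L.symm : W →L[ℝ] E)‖ * ‖c⁻¹ • w‖ :=
          (L.symm : W →L[ℝ] E).le_opNorm _
      _ = ‖(L.symm : W →L[ℝ] E)‖ * (c⁻¹ * ‖w‖) := by
          rw [norm_smul, Real.norm_of_nonneg (inv_pos.2 hcp).le]
      _ ≤ ‖(L.symm : W →L[ℝ] E)‖ * (c⁻¹ * 5) := by gcongr
      _ < ρ := by
          rw [hc, inv_div]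
          have h1 : 0 < 5 * ‖(L.symm : W →L[ℝ] E)‖ + 1 := by positivity
          rw [show ‖(L.symm : W →L[ℝ] E)‖ * (ρ / (5 * ‖(L.symm : W →L[ℝ] E)‖ + 1) * 5) =
            (5 * ‖(L.symm : W →L[ℝ] E)‖ * ρ) / (5 * ‖(L.symm : W →L[ℝ] E)‖ + 1) by ring,
            div_lt_iff₀ h1]
          nlinarith
  · have h1 : ContMDiffOn I 𝓘(ℝ, E) ∞ (extChartAt I x0) (chartAt H x0).source :=
      contMDiffOn_extChartAt
    rw [hsrc]
    exact hAsm.contMDiff.comp_contMDiffOn h1
  · have h1 : ContMDiffOn 𝓘(ℝ, E) I ∞ (extChartAt I x0).symm (extChartAt I x0).target :=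
      contMDiffOn_extChartAt_symm x0
    exact h1.comp hAssm.contMDiff.contMDiffOn (fun w hw => (htgt w).1 hw)

end smooth

end ext

end Pool.Agent.H410R3.TU
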