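import Mathlib
import Pool.Agent.H410R3.TU.Bd

/-!
# The local maps
-/

open Set Filter Topology
open scoped ContDiff NNReal

namespace Pool.Agent.H410R3.TU

open Pool.Agent.H410R3.KS (PP emb two_emb)
open Pool.Agent.Helper114.AB

section idadd

variable {V : Type} [NormedAddCommGroup V] [NormedSpace ℝ V] [CompleteSpace V] [Nontrivial V]

/-- the identity plus a contraction -/
noncomputable def idAdd (g : V → V) (hg : ∀ x y, ‖g x - g y‖ ≤ 1 / 2 * ‖x - y‖) : V ≃ₜ V :=
  ApproximatesLinearOn.toHomeomorph (fun x => x + g x) (f' := ContinuousLinearEquiv.refl ℝ V)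
    (c := (1 / 2 : ℝ≥0))
    (by
      intro x _ y _
      have e : x + g x - (y + g y) - ((ContinuousLinearEquiv.refl ℝ V : V ≃L[ℝ] V) : V →L[ℝ] V) (x - y)
          = g x - g y := by
        simp only [ContinuousLinearEquiv.coe_coe, ContinuousLinearEquiv.coe_refl', id_eq]
        abel
      rw [e]
      simpa using hg x y)
    (by
      right
      have h1 : ‖(((ContinuousLinearEquiv.refl ℝ V).symm : V ≃L[ℝ] V) : V →L[ℝ] V)‖₊ = 1 := by
        ext
        simp only [ContinuousLinearEquiv.refl_symm, ContinuousLinearEquiv.coe_refl, coe_nnnorm,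
          NNReal.coe_one]
        exact ContinuousLinearMap.norm_id
      rw [h1, inv_one]
      rw [← NNReal.coe_lt_coe]
      norm_num)

theorem idAdd_apply (g : V → V) (hg : ∀ x y, ‖g x - g y‖ ≤ 1 / 2 * ‖x - y‖) (x : V) :
    idAdd g hg x = x + g x := rfl

theorem idAdd_symm_contDiff [FiniteDimensional ℝ V] (g : V → V)
    (hg : ∀ x y, ‖g x - g y‖ ≤ 1 / 2 * ‖x - y‖) (hs : ContDiff ℝ ∞ g) :
    ContDiff ℝ ∞ (idAdd g hg).symm := by
  have hf : ContDiff ℝ ∞ (fun x => x + g x) := contDiff_id.add hs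
  have key : ∀ a : V, ∃ A : V ≃L[ℝ] V, HasFDerivAt (fun x => x + g x) (A : V →L[ℝ] V) a := by
    intro a
    have h1 : HasFDerivAt g (fderiv ℝ g a) a :=
      ((hs.differentiable (by simp)).differentiableAt).hasFDerivAt
    have h2 : HasFDerivAt (fun x => x + g x) (ContinuousLinearMap.id ℝ V + fderiv ℝ g a) a :=
      (hasFDerivAt_id a).add h1
    have h3 : ‖fderiv ℝ g a‖ ≤ 1 / 2 := by
      have hl : LipschitzWith (1 / 2 : ℝ≥0) g := by
        refine LipschitzWith.of_dist_le_mul fun x y => ?_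
        rw [dist_eq_norm, dist_eq_norm]
        simpa using hg x y
      have := norm_fderiv_le_of_lipschitz ℝ (x₀ := a) hl
      simpa using this
    set A0 : V →L[ℝ] V := ContinuousLinearMap.id ℝ V + fderiv ℝ g a with hA0
    have hinj : Function.Injective A0.toLinearMap := by
      rw [← LinearMap.ker_eq_bot, LinearMap.ker_eq_bot']
      intro v hv
      have h4 : v + fderiv ℝ g a v = 0 := hv
      have h5 : ‖v‖ ≤ 1 / 2 * ‖v‖ := by
        calc ‖v‖ = ‖fderiv ℝ g a v‖ := by
              rw [← norm_neg (fderiv ℝ g a v)]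
              exact congrArg norm (eq_neg_of_add_eq_zero_left h4)
          _ ≤ ‖fderiv ℝ g a‖ * ‖v‖ := ContinuousLinearMap.le_opNorm _ _
          _ ≤ _ := mul_le_mul_of_nonneg_right h3 (norm_nonneg _)
      have h6 := norm_nonneg v
      exact norm_eq_zero.1 (by linarith)
    refine ⟨(LinearEquiv.ofInjectiveEndo A0.toLinearMap hinj).toContinuousLinearEquiv, ?_⟩
    convert h2 using 1
    ext v
    rfl
  choose A hA using key
  exact Homeomorph.contDiff_symm (idAdd g hg) (f₀' := A) hA hf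

end idadd

/-- the direction of the displacement -/
noncomputable def eY (d : ℕ) : WW d := (0, uu d)

theorem norm_eY (d : ℕ) : ‖eY d‖ = 1 := by
  unfold eY
  rw [Prod.norm_def]
  simp [norm_uu]

theorem RA_lipY {d : ℕ} (p : PP) (x y : WW d) :
    ‖RA d (p, x) • eY d - RA d (p, y) • eY d‖ ≤ 1 / 2 * ‖x - y‖ := by
  rw [← sub_smul, norm_smul, norm_eY, mul_one, Real.norm_eq_abs]
  have := RA_lip d p x y
  have h2 := norm_nonneg (x - y)
  linarith

/-- the local maps -/
noncomputable def fP {d : ℕ} (p : PP) : WW d ≃ₜ WW d :=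
  idAdd (fun w => RA d (p, w) • eY d) (RA_lipY p)

theorem fP_apply {d : ℕ} (p : PP) (w : WW d) : fP p w = w + RA d (p, w) • eY d := rfl

theorem fP_contDiff {d : ℕ} : ContDiff ℝ ∞ (fun q : PP × WW d => fP q.1 q.2) := by
  have h1 : ContDiff ℝ ∞ (fun q : PP × WW d => q.2 + RA d q • eY d) :=
    contDiff_snd.add ((RA_contDiff d).smul contDiff_const)
  exact h1

theorem RA_contDiff' (d : ℕ) (p : PP) : ContDiff ℝ ∞ (fun w : WW d => RA d (p, w)) := by
  have h1 : ContDiff ℝ ∞ (fun x : WW d => (p, x)) := contDiff_const.prodMk contDiff_id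
  have h2 := ContDiff.comp (g := fun q : PP × WW d => RA d q) (f := fun x : WW d => (p, x))
    (RA_contDiff d) h1
  exact h2

theorem fP_symm_contDiff {d : ℕ} (p : PP) : ContDiff ℝ ∞ (fP (d := d) p).symm :=
  idAdd_symm_contDiff _ _ ((RA_contDiff' d p).smul contDiff_const)

theorem fP_out {d : ℕ} (p : PP) (w : WW d) (h : 3 / 2 ≤ ‖w‖) : fP p w = w := by
  rw [fP_apply, RA_zero d p w h, zero_smul, add_zero]

/-- the parameter of the position of the `n`-th ball -/
noncomputable def zz (a : Pm) (n : ℕ) : ℝ := zeta (a n)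

/-- the centres of the balls -/
noncomputable def ctr {d : ℕ} (a : Pm) (n : ℕ) : WW d := cc n (zz a n)

/-- the displacement -/
noncomputable def Rr {d : ℕ} (a : Pm) (w : WW d) : ℝ := RA d (emb a, w)

theorem tA_emb {d : ℕ} (a : Pm) (n : ℕ) (w : WW d) :
    tA d n (emb a, w) = eA d n * AN n (w - ctr a n) := by
  unfold tA AT ctr zz
  rw [LA_apply]
  simp only [two_emb]

theorem fst_lt_of_mem {d : ℕ} {n : ℕ} {t : ℝ} {w : WW d} (h : ‖w - cc n t‖ < eta n) :
    |w.1 - xi n| < eta n := by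
  rw [Prod.norm_def, max_lt_iff] at h
  exact h.1

theorem AN_zero_of_fst {d : ℕ} {n : ℕ} {t : ℝ} {w : WW d} (h : eta n ≤ |w.1 - xi n|) :
    AN n (w - cc n t) = 0 := by
  by_contra hc
  exact absurd (fst_lt_of_mem ((AN_ne_zero_iff n _).1 hc).1) (not_lt.2 h)

theorem Rr_slab {d : ℕ} (a : Pm) {n : ℕ} {w : WW d} (h : |w.1 - xi n| ≤ 2 * eta n) :
    Rr a w = eA d n * AN n (w - ctr a n) := by
  unfold Rr RA
  rw [tsum_eq_single n, tA_emb]
  intro m hm
  rw [tA_emb]
  unfold ctr
  rw [AN_zero_of_fst, mul_zero]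
  by_contra hc
  push Not at hc
  have := eta_pos m
  exact hm (slab_disj (by linarith) h)

theorem Rr_off {d : ℕ} (a : Pm) {w : WW d} (h : ∀ n, eta n ≤ |w.1 - xi n|) : Rr a w = 0 := by
  unfold Rr RA
  have h1 : ∀ n, tA d n (emb a, w) = 0 := by
    intro n
    rw [tA_emb]
    unfold ctr
    rw [AN_zero_of_fst (h n), mul_zero]
  simp [h1]

/-- the balls -/
def VV {d : ℕ} (a : Pm) (n : ℕ) : Set (WW d) := Metric.ball (ctr a n) (eta n)

/-- the fixed points in the balls -/
def PPt {d : ℕ} (a : Pm) (n : ℕ) : Set (WW d) := {w | w - ctr a n ∈ ZZ n}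

theorem Rr_ne_iff {d : ℕ} (a : Pm) (w : WW d) : Rr a w ≠ 0 ↔ ∃ n, w ∈ VV a n ∧ w ∉ PPt a n := by
  constructor
  · intro h
    have h1 : ∃ n, |w.1 - xi n| < eta n := by
      by_contra hc
      push Not at hc
      exact h (Rr_off a hc)
    obtain ⟨n, hn⟩ := h1
    have he := eta_pos n
    rw [Rr_slab a (n := n) (by linarith)] at h
    have h2 := (AN_ne_zero_iff n _).1 (right_ne_zero_of_mul h)
    exact ⟨n, by rw [VV, Metric.mem_ball, dist_eq_norm]; exact h2.1, h2.2⟩
  · rintro ⟨n, h1, h2⟩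
    rw [VV, Metric.mem_ball, dist_eq_norm] at h1
    have h3 : |w.1 - xi n| < eta n := fst_lt_of_mem h1
    have he := eta_pos n
    rw [Rr_slab a (n := n) (by linarith)]
    exact mul_ne_zero (eA_pos d n).ne' ((AN_ne_zero_iff n _).2 ⟨h1, h2⟩)

theorem fP_ne_iff {d : ℕ} (a : Pm) (w : WW d) :
    fP (emb a) w ≠ w ↔ ∃ n, w ∈ VV a n ∧ w ∉ PPt a n := by
  rw [← Rr_ne_iff, fP_apply]
  have hY : eY d ≠ 0 := by
    intro h
    have := norm_eY d
    rw [h, norm_zero] at this
    exact zero_ne_one this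
  rw [Ne, add_eq_left, smul_eq_zero, not_or]
  exact ⟨fun h => h.1, fun h => ⟨h, hY⟩⟩

theorem VV_disj {d : ℕ} (a : Pm) {n m : ℕ} {w : WW d} (h1 : w ∈ VV a n) (h2 : w ∈ VV a m) : n = m := by
  rw [VV, Metric.mem_ball, dist_eq_norm] at h1 h2
  have h3 : |w.1 - xi n| < eta n := fst_lt_of_mem h1
  have h4 : |w.1 - xi m| < eta m := fst_lt_of_mem h2
  have := eta_pos n
  have := eta_pos m
  exact slab_disj (by linarith) (by linarith)

theorem PPt_sub {d : ℕ} (a : Pm) (n : ℕ) : PPt (d := d) a n ⊆ VV a n := by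
  rintro w ⟨h1, j, hj, h2⟩
  rw [VV, Metric.mem_ball, dist_eq_norm, Prod.norm_def, max_lt_iff]
  have he := eta_pos n
  constructor
  · rw [h2, Real.norm_eq_abs]
    unfold tj
    have hj' : (j:ℝ) < n + 1 := by
      have := Finset.mem_range.1 hj
      exact_mod_cast this
    have h3 : (j:ℝ) / (n + 1) < 1 := by
      rw [div_lt_one (by positivity)]; exact hj'
    have h4 : 0 ≤ (j:ℝ) / (n + 1) := by positivity
    rw [abs_of_nonneg (by positivity)]
    nlinarith
  · rw [h1, norm_zero]; exact he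

/-- the number of fixed points in the balls -/
theorem PPt_ncard {d : ℕ} (a : Pm) (n : ℕ) : (PPt (d := d) a n).ncard = n + 1 := by
  have h1 : PPt (d := d) a n = (fun j : ℕ => (ctr a n + (tj n j, 0) : WW d)) '' (Finset.range (n + 1)) := by
    ext w
    constructor
    · rintro ⟨h1, j, hj, h2⟩
      refine ⟨j, by simpa using hj, ?_⟩
      have : w - ctr a n = (tj n j, 0) := Prod.ext h2 h1
      simp only
      rw [← this]; abel
    · rintro ⟨j, hj, rfl⟩
      show _ - _ ∈ ZZ n
      rw [add_sub_cancel_left]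
      exact ⟨rfl, j, by simpa using hj, rfl⟩
  rw [h1, Set.ncard_image_of_injective, Set.ncard_coe_finset, Finset.card_range]
  intro i j hij
  have h2 : ((tj n i, 0) : WW d) = (tj n j, 0) := add_left_cancel hij
  have h3 : tj n i = tj n j := congrArg Prod.fst h2
  unfold tj at h3
  have he := eta_pos n
  have h4 := mul_left_cancel₀ he.ne' h3
  have h5 : (0:ℝ) < n + 1 := by positivity
  rw [div_left_inj' h5.ne'] at h4
  exact_mod_cast h4

end Pool.Agent.H410R3.TU
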