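import Mathlib
import Pool.Agent.H410R3.TU.Loc
import Pool.Agent.H410R3.TU.Ext

/-!
# Conjugacies between the local maps
-/

open Set Filter Topology
open scoped ContDiff

namespace Pool.Agent.H410R3.TU

open Pool.Agent.H410R3.KS (PP emb two_emb)
open Pool.Agent.Helper114.AB

/-- cut-off function of the slabs -/
noncomputable def al (n : ℕ) (X : ℝ) : ℝ := max 0 (min 1 (2 - |X - xi n| / eta n))

theorem al_continuous (n : ℕ) : Continuous (al n) := by
  unfold al
  fun_prop

theorem al_nonneg (n : ℕ) (X : ℝ) : 0 ≤ al n X := le_max_left _ _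

theorem al_le (n : ℕ) (X : ℝ) : al n X ≤ 1 := max_le zero_le_one (min_le_left _ _)

theorem al_one {n : ℕ} {X : ℝ} (h : |X - xi n| ≤ eta n) : al n X = 1 := by
  have he := eta_pos n
  have h1 : |X - xi n| / eta n ≤ 1 := by rw [div_le_one he]; exact h
  unfold al
  rw [min_eq_left (by linarith), max_eq_right zero_le_one]

theorem al_zero {n : ℕ} {X : ℝ} (h : 2 * eta n ≤ |X - xi n|) : al n X = 0 := by
  have he := eta_pos n
  have h1 : 2 ≤ |X - xi n| / eta n := by rw [le_div_iff₀ he]; exact h
  unfold al
  exact max_eq_left ((min_le_right _ _).trans (by linarith))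

/-- cut-off function of the fibres -/
noncomputable def kap {d : ℕ} (v : FS d) : ℝ := max 0 (min 1 ((5 - ‖v‖) / 3))

theorem kap_nonneg {d : ℕ} (v : FS d) : 0 ≤ kap v := le_max_left _ _

theorem kap_le {d : ℕ} (v : FS d) : kap v ≤ 1 := max_le zero_le_one (min_le_left _ _)

theorem kap_one {d : ℕ} {v : FS d} (h : ‖v‖ ≤ 2) : kap v = 1 := by
  unfold kap
  rw [min_eq_left (by linarith), max_eq_right zero_le_one]

theorem kap_zero {d : ℕ} {v : FS d} (h : 5 ≤ ‖v‖) : kap v = 0 := by
  unfold kap
  exact max_eq_left ((min_le_right _ _).trans (by linarith))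

theorem kap_continuous {d : ℕ} : Continuous (kap (d := d)) := by
  unfold kap
  fun_prop

theorem kap_lip {d : ℕ} (v v' : FS d) : |kap v - kap v'| ≤ 1 / 3 * ‖v - v'‖ := by
  have h1 := abs_norm_sub_norm_le v v'
  rw [abs_le] at h1
  unfold kap
  have h0 := norm_nonneg (v - v')
  rw [abs_le]
  constructor <;>
  · simp only [max_def, min_def]
    split_ifs <;> linarith [h1.1, h1.2]

section

variable (a b : Pm)

/-- the differences of the positions -/
noncomputable def dn (n : ℕ) : ℝ := zz b n - zz a n

theorem dn_abs (n : ℕ) : |dn a b n| ≤ 1 := by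
  unfold dn zz
  have h1 := zeta_mem (a n)
  have h2 := zeta_mem (b n)
  rw [abs_le]
  constructor <;> linarith [h1.1, h1.2, h2.1, h2.2]

/-- the translation lengths -/
noncomputable def SS (X : ℝ) : ℝ := ∑' n, al n X * dn a b n

variable {a b}

theorem SS_of {n : ℕ} {X : ℝ} (h : |X - xi n| < 2 * eta n) : SS a b X = al n X * dn a b n := by
  unfold SS
  rw [tsum_eq_single n]
  intro m hm
  rw [al_zero, zero_mul]
  by_contra hc
  push Not at hc
  exact hm (slab_disj hc.le h.le)

theorem SS_zero {X : ℝ} (h : ∀ n, 2 * eta n ≤ |X - xi n|) : SS a b X = 0 := by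
  unfold SS
  have : ∀ n, al n X * dn a b n = 0 := fun n => by rw [al_zero (h n), zero_mul]
  simp [this]

theorem SS_abs (X : ℝ) : |SS a b X| ≤ 1 := by
  by_cases h : ∃ n, |X - xi n| < 2 * eta n
  · obtain ⟨n, hn⟩ := h
    rw [SS_of hn, abs_mul, abs_of_nonneg (al_nonneg n X)]
    exact mul_le_one₀ (al_le n X) (abs_nonneg _) (dn_abs a b n)
  · push Not at h
    rw [SS_zero h]
    simp

theorem SS_out {X : ℝ} (h : 1 ≤ |X|) : SS a b X = 0 := by
  apply SS_zero
  intro n
  have h1 := eta_pos n
  have h2 := eta_le n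
  unfold xi
  rcases le_abs.1 h with h3 | h3
  · exact le_abs.2 (Or.inl (by linarith))
  · exact le_abs.2 (Or.inr (by linarith))

theorem SS_continuous (hs : Summable fun n => |dn a b n|) : Continuous (SS a b) := by
  unfold SS
  refine continuous_tsum (u := fun n => |dn a b n|)
    (fun n => (al_continuous n).mul continuous_const) hs (fun n X => ?_)
  rw [Real.norm_eq_abs, abs_mul, abs_of_nonneg (al_nonneg n X)]
  exact mul_le_of_le_one_left (abs_nonneg _) (al_le n X)

theorem fib_lip {d : ℕ} (X : ℝ) (v v' : FS d) :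
    ‖(SS a b X * kap v) • uu d - (SS a b X * kap v') • uu d‖ ≤ 1 / 2 * ‖v - v'‖ := by
  rw [← sub_smul, norm_smul, norm_uu, mul_one, ← mul_sub, Real.norm_eq_abs, abs_mul]
  have h1 := SS_abs (a := a) (b := b) X
  have h2 := kap_lip v v'
  have h3 := norm_nonneg (v - v')
  have h4 := abs_nonneg (kap v - kap v')
  have h5 := abs_nonneg (SS a b X)
  nlinarith

/-- the conjugacies -/
noncomputable def Th (d : ℕ) (a b : Pm) : WW d ≃ WW d where
  toFun w := (w.1, w.2 + (SS a b w.1 * kap w.2) • uu d)
  invFun w := (w.1, (idAdd (fun v : FS d => (SS a b w.1 * kap v) • uu d) (fib_lip w.1)).symm w.2)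
  left_inv w := by
    refine Prod.ext rfl ?_
    simp only
    rw [Homeomorph.symm_apply_eq, idAdd_apply]
  right_inv w := by
    refine Prod.ext rfl ?_
    simp only
    have h := (idAdd (fun v : FS d => (SS a b w.1 * kap v) • uu d) (fib_lip w.1)).apply_symm_apply w.2
    rw [idAdd_apply] at h
    exact h

theorem Th_apply (d : ℕ) (w : WW d) :
    Th d a b w = (w.1, w.2 + (SS a b w.1 * kap w.2) • uu d) := rfl

theorem Th_continuous (d : ℕ) (hs : Summable fun n => |dn a b n|) : Continuous (Th d a b) := by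
  have h1 := SS_continuous hs
  have h2 : Continuous (fun w : WW d => (w.1, w.2 + (SS a b w.1 * kap w.2) • uu d)) := by
    have h3 : Continuous (fun w : WW d => SS a b w.1 * kap w.2) :=
      (h1.comp continuous_fst).mul (kap_continuous.comp continuous_snd)
    have h4 : Continuous (fun w : WW d => (SS a b w.1 * kap w.2) • uu d) :=
      h3.smul continuous_const
    exact continuous_fst.prodMk (continuous_snd.add h4)
  exact h2

theorem Th_off (d : ℕ) : Off (Th d a b) := by
  intro w hw
  rw [Prod.norm_def, le_max_iff] at hw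
  rw [Th_apply]
  refine Prod.ext rfl ?_
  simp only
  rcases hw with h | h
  · rw [SS_out (by rw [Real.norm_eq_abs] at h; linarith), zero_mul, zero_smul, add_zero]
  · rw [kap_zero h, mul_zero, zero_smul, add_zero]

theorem AN_zero_of_snd {d : ℕ} {n : ℕ} {v : WW d} (h : eta n ≤ ‖v.2‖) : AN n v = 0 := by
  by_contra hc
  have h1 := ((AN_ne_zero_iff n v).1 hc).1
  rw [Prod.norm_def, max_lt_iff] at h1
  exact absurd h1.2 (not_lt.2 h)

theorem Rr_Th {d : ℕ} (w : WW d) : Rr b (Th d a b w) = Rr a w := by
  by_cases h : ∃ n, |w.1 - xi n| < eta n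
  · obtain ⟨n, hn⟩ := h
    have he := eta_pos n
    have he2 := eta_le n
    have hS : SS a b w.1 = dn a b n := by
      rw [SS_of (n := n) (by linarith), al_one hn.le, one_mul]
    rw [Rr_slab a (n := n) (by linarith), Rr_slab b (n := n) (by rw [Th_apply]; simp only; linarith)]
    congr 1
    have za := zeta_mem (a n)
    have zb := zeta_mem (b n)
    by_cases h2 : ‖w.2‖ ≤ 2
    · congr 1
      rw [Th_apply, hS, kap_one h2, mul_one]
      unfold ctr cc dn
      refine Prod.ext rfl ?_
      simp only [Prod.snd_sub]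
      module
    · push Not at h2
      rw [AN_zero_of_snd, AN_zero_of_snd]
      · show eta n ≤ ‖w.2 - zz a n • uu d‖
        have h3 := norm_sub_norm_le w.2 (zz a n • uu d)
        rw [norm_smul, norm_uu, mul_one, Real.norm_eq_abs] at h3
        unfold zz at h3 ⊢
        rw [abs_of_nonneg za.1] at h3
        linarith [za.2]
      · rw [Th_apply, hS]
        show eta n ≤ ‖w.2 + (dn a b n * kap w.2) • uu d - zz b n • uu d‖
        have e1 : w.2 + (dn a b n * kap w.2) • uu d - zz b n • uu d =
            w.2 - (zz b n - dn a b n * kap w.2) • uu d := by module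
        rw [e1]
        have h3 := norm_sub_norm_le w.2 ((zz b n - dn a b n * kap w.2) • uu d)
        rw [norm_smul, norm_uu, mul_one, Real.norm_eq_abs] at h3
        have h4 : |zz b n - dn a b n * kap w.2| ≤ 1 := by
          unfold dn zz
          have k1 := kap_nonneg w.2
          have k2 := kap_le w.2
          have e2 : zeta (b n) - (zeta (b n) - zeta (a n)) * kap w.2 =
            zeta (b n) * (1 - kap w.2) + zeta (a n) * kap w.2 := by ring
          rw [e2, abs_le]
          have t1 := mul_nonneg zb.1 (sub_nonneg.2 k2)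
          have t2 := mul_nonneg za.1 k1
          have t3 := mul_le_mul_of_nonneg_right zb.2 (sub_nonneg.2 k2)
          have t4 := mul_le_mul_of_nonneg_right za.2 k1
          constructor <;> linarith
        linarith
  · push Not at h
    rw [Rr_off a h, Rr_off b (by intro n; rw [Th_apply]; exact h n)]

theorem Th_conj {d : ℕ} (w : WW d) : Th d a b (fP (emb a) w) = fP (emb b) (Th d a b w) := by
  have e1 : fP (emb a) w = w + Rr a w • eY d := rfl
  have e2 : fP (emb b) (Th d a b w) = Th d a b w + Rr b (Th d a b w) • eY d := rfl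
  rw [e2, Rr_Th, e1]
  by_cases h : Rr a w = 0
  · rw [h, zero_smul, add_zero, add_zero]
  · obtain ⟨n, hn, -⟩ := (Rr_ne_iff a w).1 h
    rw [VV, Metric.mem_ball, dist_eq_norm, Prod.norm_def, max_lt_iff] at hn
    have hn1 : |w.1 - xi n| < eta n := hn.1
    have hn2 : ‖w.2 - zz a n • uu d‖ < eta n := hn.2
    have he := eta_pos n
    have he2 := eta_le n
    have za := zeta_mem (a n)
    have h3 : ‖w.2‖ ≤ 1 + 1 / 32 := by
      have h3 := norm_sub_norm_le w.2 (zz a n • uu d)
      rw [norm_smul, norm_uu, mul_one, Real.norm_eq_abs] at h3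
      unfold zz at h3 hn2
      rw [abs_of_nonneg za.1] at h3
      linarith [za.2]
    have hR1 : Rr a w ≤ 1 / 16 := RA_le d _
    have hR0 : 0 ≤ Rr a w := RA_nonneg d _
    have h4 : ‖w.2 + Rr a w • uu d‖ ≤ 2 := by
      refine (norm_add_le _ _).trans ?_
      rw [norm_smul, norm_uu, mul_one, Real.norm_of_nonneg hR0]
      linarith
    have e3 : w + Rr a w • eY d = (w.1, w.2 + Rr a w • uu d) := by
      unfold eY
      refine Prod.ext ?_ ?_ <;> simp
    rw [e3, Th_apply, Th_apply, kap_one h4, kap_one (by linarith : ‖w.2‖ ≤ 2)]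
    unfold eY
    refine Prod.ext ?_ ?_
    · simp
    · simp only [mul_one, Prod.snd_add, Prod.smul_snd]
      module

end

end Pool.Agent.H410R3.TU
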