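import Mathlib
import Pool.Agent.H410R3.KS.Defs

/-!
# Borel actions of `S_∞` and Borel reductions of topological conjugacy
-/

open Set Filter Topology
open scoped Manifold ContDiff

namespace Pool.Agent.H410R3.TU

open Pool.Agent.H410R3.KS (DiffR DiffR.map crTopology TopConj)

universe u

/-- The topology of pointwise convergence on the group `S_∞` of the permutations of `ℕ`: the
topology induced by the inclusion of `S_∞` in the product `ℕ^ℕ` of discrete spaces. -/
@[reducible] def sInfTopology : TopologicalSpace (Equiv.Perm ℕ) :=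
  TopologicalSpace.induced (fun (π : Equiv.Perm ℕ) (n : ℕ) => π n) Pi.topologicalSpace

/-- The action of `S_∞` on `Y` is Borel: the map `(π, y) ↦ π • y` is Borel measurable on
`S_∞ × Y`. -/
def IsBorelAction (Y : Type u) [MeasurableSpace Y] [MulAction (Equiv.Perm ℕ) Y] : Prop :=
  @Measurable (Equiv.Perm ℕ × Y) Y
    (@Prod.instMeasurableSpace (Equiv.Perm ℕ) Y (@borel (Equiv.Perm ℕ) sInfTopology) inferInstance)
    inferInstance (fun p : Equiv.Perm ℕ × Y => p.1 • p.2)

/-- The relation `E_M` of topological conjugacy on `Diff^∞(M)` is Borel reducible to the orbit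
equivalence relation of the action of `S_∞` on `Y`. -/
def ReducesToOrbits {E H : Type} [NormedAddCommGroup E] [NormedSpace ℝ E] [FiniteDimensional ℝ E]
    [TopologicalSpace H] (I : ModelWithCorners ℝ E H) (M : Type) [TopologicalSpace M]
    [ChartedSpace H M] (Y : Type u) [MeasurableSpace Y] [MulAction (Equiv.Perm ℕ) Y] : Prop :=
  ∃ φ : DiffR I M ⊤ → Y,
    @Measurable (DiffR I M ⊤) Y (@borel (DiffR I M ⊤) (crTopology I M ⊤)) inferInstance φ ∧
    ∀ f g : DiffR I M ⊤, TopConj f.map g.map ↔ ∃ π : Equiv.Perm ℕ, π • φ f = φ g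

end Pool.Agent.H410R3.TU
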