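import Mathlib
import Pool.Agent.H410R3.TU.Conj
import Pool.Agent.H410R3.TU.Ext
import Pool.Agent.H410R3.TU.Cont

/-!
# The family of diffeomorphisms
-/

set_option linter.unusedSectionVars false

open Set Filter Topology
open scoped Manifold ContDiff

namespace Pool.Agent.H410R3.TU

open Pool.Agent.H410R3.KS (PP emb two_emb emb_continuous DiffR DiffR.map TopConj crTopology)
open Pool.Agent.Helper114.AB

theorem fP_off {d : ℕ} (p : PP) : Off (fP (d := d) p).toEquiv :=
  fun w hw => fP_out p w (by linarith)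

section

variable {E H : Type} [NormedAddCommGroup E] [NormedSpace ℝ E] [FiniteDimensional ℝ E]
  [TopologicalSpace H] {I : ModelWithCorners ℝ E H} [I.Boundaryless]
  {M : Type} [TopologicalSpace M] [ChartedSpace H M] [IsManifold I ∞ M] [T2Space M]
  {d : ℕ} {e : OpenPartialHomeomorph M (WW d)}
  (hK : Metric.closedBall (0 : WW d) 5 ⊆ e.target)
  (hs1 : ContMDiffOn I 𝓘(ℝ, WW d) ∞ e e.source)
  (hs2 : ContMDiffOn 𝓘(ℝ, WW d) I ∞ e.symm e.target)

include hK hs1 hs2

theorem fam_smooth : ContMDiff (𝓘(ℝ, PP).prod I) I ∞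
    (fun q : PP × M => ext e (fun w => fP q.1 w) q.2) :=
  ext_smooth hK hs1 hs2 (fun q : PP × WW d => fP q.1 q.2) fP_contDiff
    (fun p => (fP p).injective) (fun p => fP_off p)

theorem fam_smooth1 (p : PP) : ContMDiff I I ∞ (ext e (fP p)) := by
  have h2 : ContMDiff I (𝓘(ℝ, PP).prod I) ∞ (fun q : M => (p, q)) :=
    contMDiff_const.prodMk contMDiff_id
  have h3 := ContMDiff.comp (g := fun q : PP × M => ext e (fun w => fP q.1 w) q.2)
    (fam_smooth hK hs1 hs2) h2
  exact h3

theorem fam_smooth2 (p : PP) : ContMDiff I I ∞ (ext e (fP p).symm) := by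
  have h1 : ContMDiff (𝓘(ℝ, ℝ).prod I) I ∞
      (fun q : ℝ × M => ext e (fun w => (fP p).symm w) q.2) :=
    ext_smooth hK hs1 hs2 (fun q : ℝ × WW d => (fP p).symm q.2)
      ((fP_symm_contDiff p).comp contDiff_snd)
      (fun _ => (fP p).symm.injective) (fun _ => (fP_off p).symm)
  have h2 : ContMDiff I (𝓘(ℝ, ℝ).prod I) ∞ (fun q : M => ((0:ℝ), q)) :=
    contMDiff_const.prodMk contMDiff_id
  have h3 := ContMDiff.comp (g := fun q : ℝ × M => ext e (fun w => (fP p).symm w) q.2) h1 h2
  exact h3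

/-- the diffeomorphisms -/
noncomputable def dM (p : PP) : DiffR I M ⊤ :=
  { toEquiv := extE hK (fP p).toEquiv (fP_off p)
    contMDiff_toFun := fam_smooth1 hK hs1 hs2 p
    contMDiff_invFun := fam_smooth2 hK hs1 hs2 p }

theorem dM_map (p : PP) (x : M) : (dM hK hs1 hs2 p).map x = ext e (fP p) x := rfl

theorem dM_continuous : @Continuous _ _ _ (crTopology I M ⊤) (dM (I := I) hK hs1 hs2) :=
  fam_continuous (fun q : PP × M => ext e (fun w => fP q.1 w) q.2) (fam_smooth hK hs1 hs2)
    (dM hK hs1 hs2) fun _ _ => rfl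

theorem dM_conj [CompactSpace M] (a b : Pm) (hs : Summable fun n => |dn a b n|) :
    TopConj (dM (I := I) hK hs1 hs2 (emb a)).map (dM (I := I) hK hs1 hs2 (emb b)).map := by
  have hc : Continuous (ext e (Th d a b)) :=
    ext_continuous hK (Th_continuous d hs) (Th d a b).injective (Th_off d)
  have hc' : Continuous (extE hK (Th d a b) (Th_off d)) := hc
  refine ⟨Continuous.homeoOfEquivCompactToT2 hc', fun x => ?_⟩
  show ext e (Th d a b) (ext e (fP (emb a)) x) = ext e (fP (emb b)) (ext e (Th d a b) x)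
  rw [ext_comp hK (fP (emb a)).injective (fP_off _),
    ext_comp hK (Th d a b).injective (Th_off d)]
  congr 1
  funext w
  exact Th_conj w

end

end Pool.Agent.H410R3.TU
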