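import Mathlib

/-!
# Conjugacy invariants
-/

open Set Filter Topology

namespace Pool.Agent.H410R3.TU

variable {M : Type} [TopologicalSpace M]

/-- the points of the closure of the set of the moved points, which have a neighbourhood with no
other fixed point -/
def Wf (f : M → M) : Set M :=
  {m | m ∈ closure {x | f x ≠ x} ∧ ∃ O ∈ 𝓝 m, ∀ m' ∈ O, f m' = m' → m' = m}

theorem Wf_map {f g : M → M} (h : M ≃ₜ M) (hh : ∀ x, h (f x) = g (h x)) {m : M} (hm : m ∈ Wf f) :
    h m ∈ Wf g := by
  obtain ⟨h1, O, hO, h2⟩ := hm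
  refine ⟨?_, h.symm ⁻¹' O, ?_, ?_⟩
  · have h3 := mem_closure_image h.continuous.continuousAt h1
    refine closure_mono ?_ h3
    rintro _ ⟨x, hx, rfl⟩
    show g (h x) ≠ h x
    rw [← hh]
    exact fun hc => hx (h.injective hc)
  · apply h.symm.continuous.continuousAt.preimage_mem_nhds
    rwa [h.symm_apply_apply]
  · intro m' hm' hg
    have h3 : f (h.symm m') = h.symm m' := by
      apply h.injective
      rw [hh, h.apply_symm_apply, hg]
    have h4 := h2 _ hm' h3
    rw [← h4, h.apply_symm_apply]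

theorem conj_symm {f g : M → M} (h : M ≃ₜ M) (hh : ∀ x, h (f x) = g (h x)) (x : M) :
    h.symm (g x) = f (h.symm x) := by
  rw [Homeomorph.symm_apply_eq, hh, h.apply_symm_apply]

theorem Wf_image {f g : M → M} (h : M ≃ₜ M) (hh : ∀ x, h (f x) = g (h x)) : h '' Wf f = Wf g := by
  apply Subset.antisymm
  · rintro _ ⟨m, hm, rfl⟩
    exact Wf_map h hh hm
  · intro m hm
    exact ⟨h.symm m, Wf_map h.symm (conj_symm h hh) hm, h.apply_symm_apply m⟩

/-- a decomposition of the set `Wf f` -/
structure Dec (f : M → M) (V : ℕ → Set M) : Prop where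
  op : ∀ n, IsOpen (V n)
  pre : ∀ n, IsPreconnected (V n)
  ne : ∀ n, (V n).Nonempty
  disj : ∀ n m x, x ∈ V n → x ∈ V m → n = m
  un : Wf f = ⋃ n, V n
  card : ∀ n, (V n ∩ {x | f x = x}).ncard = n + 1

theorem Dec.comp {f : M → M} {V : ℕ → Set M} (hV : Dec f V) {n : ℕ} {m : M} (hm : m ∈ V n) :
    connectedComponentIn (Wf f) m = V n := by
  have hsub : V n ⊆ Wf f := by rw [hV.un]; exact subset_iUnion V n
  have hmW : m ∈ Wf f := hsub hm
  apply Subset.antisymm
  · have h1 : IsPreconnected (connectedComponentIn (Wf f) m) := isPreconnected_connectedComponentIn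
    have h2 : m ∈ connectedComponentIn (Wf f) m := mem_connectedComponentIn hmW
    refine h1.subset_left_of_subset_union (v := ⋃ k ∈ {k | k ≠ n}, V k) (hV.op n)
      (isOpen_biUnion fun k _ => hV.op k) ?_ ?_ ⟨m, h2, hm⟩
    · rw [Set.disjoint_left]
      intro x hx hx2
      simp only [mem_iUnion] at hx2
      obtain ⟨k, hk, hx3⟩ := hx2
      exact hk (hV.disj k n x hx3 hx)
    · intro x hx
      have h3 := connectedComponentIn_subset _ _ hx
      rw [hV.un] at h3
      obtain ⟨k, hk⟩ := mem_iUnion.1 h3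
      by_cases hkn : k = n
      · left; rwa [hkn] at hk
      · right
        simp only [mem_iUnion]
        exact ⟨k, hkn, hk⟩
  · exact (hV.pre n).subset_connectedComponentIn hm hsub

theorem Dec.image {f g : M → M} {V V' : ℕ → Set M} (hV : Dec f V) (hV' : Dec g V') (h : M ≃ₜ M)
    (hh : ∀ x, h (f x) = g (h x)) (n : ℕ) : h '' V n = V' n := by
  obtain ⟨m, hm⟩ := hV.ne n
  have hmW : m ∈ Wf f := by rw [hV.un]; exact mem_iUnion.2 ⟨n, hm⟩
  have h1 : h m ∈ Wf g := Wf_map h hh hmW
  rw [hV'.un] at h1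
  obtain ⟨k, hk⟩ := mem_iUnion.1 h1
  have h2 : h '' V n = V' k := by
    rw [← hV.comp hm, ← hV'.comp hk, ← Wf_image h hh]
    exact h.image_connectedComponentIn hmW
  have h3 : h '' (V n ∩ {x | f x = x}) = V' k ∩ {x | g x = x} := by
    rw [image_inter h.injective, h2]
    congr 1
    ext x
    constructor
    · rintro ⟨y, hy, rfl⟩
      show g (h y) = h y
      rw [← hh]
      exact congrArg h hy
    · intro hx
      refine ⟨h.symm x, ?_, h.apply_symm_apply x⟩
      show f (h.symm x) = h.symm x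
      rw [← conj_symm h hh]
      exact congrArg h.symm hx
  have h4 := hV.card n
  have h5 := hV'.card k
  rw [← h3, ncard_image_of_injective _ h.injective, h4] at h5
  have h6 : n = k := by omega
  rw [h2, h6]

end Pool.Agent.H410R3.TU
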