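import Mathlib
import Pool.Agent.H410R3.TU.Rig1
import Pool.Agent.H410R3.TU.Fam

/-!
# Rigidity of the family
-/

set_option linter.unusedSectionVars false

open Set Filter Topology
open scoped Manifold ContDiff

namespace Pool.Agent.H410R3.TU

open Pool.Agent.H410R3.KS (PP emb two_emb emb_continuous DiffR DiffR.map TopConj crTopology)
open Pool.Agent.Helper114.AB

section

variable {M : Type} [TopologicalSpace M] [T2Space M]
  {d : ℕ} {e : OpenPartialHomeomorph M (WW d)}
  (hK : Metric.closedBall (0 : WW d) 5 ⊆ e.target)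

theorem VV_sub (a : Pm) (n : ℕ) : VV (d := d) a n ⊆ Metric.closedBall 0 5 := by
  intro w hw
  rw [VV, Metric.mem_ball, dist_eq_norm] at hw
  rw [mem_closedBall_zero_iff]
  have h1 := norm_cc (d := d) n (zeta_mem (a n))
  have h2 := norm_sub_norm_le w (ctr a n)
  have h3 := eta_le n
  unfold ctr zz at h2 hw
  linarith

theorem fix_iff (a : Pm) {n : ℕ} {w : WW d} (hw : w ∈ VV a n) :
    fP (emb a) w = w ↔ w ∈ PPt a n := by
  constructor
  · intro h
    by_contra hc
    exact (fP_ne_iff a w).2 ⟨n, hw, hc⟩ h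
  · intro h
    by_contra hc
    obtain ⟨k, h1, h2⟩ := (fP_ne_iff a w).1 hc
    rw [VV_disj a h1 hw] at h2
    exact h2 h

include hK

theorem VV_tgt (a : Pm) (n : ℕ) : VV (d := d) a n ⊆ e.target := (VV_sub a n).trans hK

theorem ext_fix_iff (p : PP) {w : WW d} (hw : w ∈ e.target) :
    ext e (fP p) (e.symm w) = e.symm w ↔ fP p w = w := by
  rw [ext_symm e _ hw]
  constructor
  · intro h
    exact e.symm.injOn (maps_target hK (fP p).injective (fP_off p) hw) hw h
  · intro h; rw [h]

/-- the balls in the manifold -/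
def VM (e : OpenPartialHomeomorph M (WW d)) (a : Pm) (n : ℕ) : Set M := e.symm '' VV a n

theorem PPt_dense (a : Pm) (n : ℕ) : VV (d := d) a n ⊆ closure (VV a n ∩ (PPt a n)ᶜ) := by
  have hfin : (PPt (d := d) a n).Finite := by
    apply Set.finite_of_ncard_pos
    rw [PPt_ncard]
    omega
  have hd : Dense (PPt (d := d) a n)ᶜ := hfin.countable.dense_compl ℝ
  exact hd.open_subset_closure_inter Metric.isOpen_ball

theorem one_side (a : Pm) {w : WW d} (hw : ∀ n, w ∉ VV a n) {t : ℝ} :
    (∀ n, w + t • eY d ∉ VV a n) ∨ (∀ n, w - t • eY d ∉ VV a n) := by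
  by_contra hc
  push Not at hc
  obtain ⟨⟨n, hn⟩, ⟨k, hk⟩⟩ := hc
  have h1 : |(w + t • eY d).1 - xi n| < eta n := by
    rw [VV, Metric.mem_ball, dist_eq_norm] at hn
    exact fst_lt_of_mem hn
  have h2 : |(w - t • eY d).1 - xi k| < eta k := by
    rw [VV, Metric.mem_ball, dist_eq_norm] at hk
    exact fst_lt_of_mem hk
  have e1 : (w + t • eY d).1 = w.1 := by simp [eY]
  have e2 : (w - t • eY d).1 = w.1 := by simp [eY]
  rw [e1] at h1
  rw [e2] at h2
  have p1 := eta_pos n
  have p2 := eta_pos k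
  have h3 : n = k := slab_disj (X := w.1) (by linarith) (by linarith)
  subst h3
  have h4 := (convex_ball (ctr a n : WW d) (eta n)) hn hk (a := 1 / 2) (b := 1 / 2)
    (by norm_num) (by norm_num) (by norm_num)
  apply hw n
  have e3 : (1 / 2 : ℝ) • (w + t • eY d) + (1 / 2 : ℝ) • (w - t • eY d) = w := by module
  rw [e3] at h4
  exact h4

theorem eY_ne : eY d ≠ 0 := by
  intro h
  have := norm_eY d
  rw [h, norm_zero] at this
  exact zero_ne_one this

theorem Wf_fam (a : Pm) : Wf (ext e (fP (emb a))) = ⋃ n, VM e a n := by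
  apply Subset.antisymm
  · rintro m ⟨h1, O, hO, h2⟩
    have hsub : {x | ext e (fP (emb a)) x ≠ x} ⊆ KK e := by
      intro x hx
      by_contra hc
      exact hx (ext_off (fP_off (emb a)) hc)
    have hm : m ∈ KK e := closure_minimal hsub (KK_compact hK).isClosed h1
    obtain ⟨w, hw, rfl⟩ := hm
    have hwt := hK hw
    by_contra hc
    have hc' : ∀ n, w ∉ VV a n := by
      intro n hn
      exact hc (mem_iUnion.2 ⟨n, w, hn, rfl⟩)
    have hN : e.symm ⁻¹' O ∩ e.target ∈ 𝓝 w :=
      inter_mem ((e.continuousAt_symm hwt).preimage_mem_nhds hO) (e.open_target.mem_nhds hwt)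
    obtain ⟨δ, hδ, hball⟩ := Metric.mem_nhds_iff.1 hN
    have key : ∀ s : ℝ, |s| = δ / 2 → ¬ (∀ n, w + s • eY d ∉ VV a n) := by
      intro s hs hn
      have h3 : w + s • eY d ∈ Metric.ball w δ := by
        rw [Metric.mem_ball, dist_eq_norm, add_sub_cancel_left, norm_smul, norm_eY, mul_one,
          Real.norm_eq_abs, hs]
        linarith
      obtain ⟨h4, h5⟩ := hball h3
      have h6 : fP (emb a) (w + s • eY d) = w + s • eY d := by
        by_contra h7
        obtain ⟨n, h8, -⟩ := (fP_ne_iff a _).1 h7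
        exact hn n h8
      have h9 := h2 _ h4 ((ext_fix_iff hK (emb a) h5).2 h6)
      have h10 := e.symm.injOn h5 hwt h9
      rw [add_eq_left, smul_eq_zero] at h10
      rcases h10 with h11 | h11
      · rw [h11, abs_zero] at hs
        linarith
      · exact eY_ne hK h11
    rcases one_side hK a hc' (t := δ / 2) with h | h
    · exact key (δ / 2) (abs_of_pos (by linarith)) h
    · refine key (-(δ / 2)) (by rw [abs_neg]; exact abs_of_pos (by linarith)) ?_
      intro n
      rw [neg_smul, ← sub_eq_add_neg]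
      exact h n
  · intro m hm
    obtain ⟨n, hn⟩ := mem_iUnion.1 hm
    obtain ⟨w, hw, rfl⟩ := hn
    have hwt := VV_tgt hK a n hw
    refine ⟨?_, VM e a n \ (e.symm '' (PPt a n \ {w})), ?_, ?_⟩
    · have h1 := mem_closure_image (f := e.symm) (e.continuousAt_symm hwt) (PPt_dense hK a n hw)
      refine closure_mono ?_ h1
      rintro _ ⟨w', ⟨h2, h3⟩, rfl⟩ h4
      exact h3 ((fix_iff a h2).1 ((ext_fix_iff hK (emb a) (VV_tgt hK a n h2)).1 h4))
    · have hop : IsOpen (VM e a n) :=
        e.isOpen_image_symm_of_subset_target Metric.isOpen_ball (VV_tgt hK a n)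
      have hfin : (PPt (d := d) a n).Finite := by
        apply Set.finite_of_ncard_pos
        rw [PPt_ncard]
        omega
      have hcl : IsClosed (e.symm '' (PPt a n \ {w})) := (hfin.sdiff.image _).isClosed
      refine (hop.sdiff hcl).mem_nhds ⟨⟨w, hw, rfl⟩, ?_⟩
      rintro ⟨w', ⟨h1, h2⟩, h3⟩
      exact h2 (e.symm.injOn (VV_tgt hK a n (PPt_sub a n h1)) hwt h3)
    · rintro m' ⟨⟨w', h1, rfl⟩, h2⟩ h3
      by_contra hc
      apply h2
      refine ⟨w', ⟨(fix_iff a h1).1 ((ext_fix_iff hK (emb a) (VV_tgt hK a n h1)).1 h3), ?_⟩, rfl⟩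
      intro h4
      exact hc (congrArg e.symm h4)

theorem dec_fam (a : Pm) : Dec (ext e (fP (emb a))) (VM e a) where
  op n := e.isOpen_image_symm_of_subset_target Metric.isOpen_ball (VV_tgt hK a n)
  pre n := (convex_ball _ _).isPreconnected.image _ (e.continuousOn_symm.mono (VV_tgt hK a n))
  ne n := (Metric.nonempty_ball.2 (eta_pos n)).image _
  disj n m x := by
    rintro ⟨w, hw, rfl⟩ ⟨w', hw', h⟩
    have := e.symm.injOn (VV_tgt hK a m hw') (VV_tgt hK a n hw) h
    rw [this] at hw'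
    exact VV_disj a hw hw'
  un := Wf_fam hK a
  card n := by
    have h1 : VM e a n ∩ {x | ext e (fP (emb a)) x = x} = e.symm '' PPt a n := by
      ext x
      constructor
      · rintro ⟨⟨w, hw, rfl⟩, h⟩
        exact ⟨w, (fix_iff a hw).1 ((ext_fix_iff hK (emb a) (VV_tgt hK a n hw)).1 h), rfl⟩
      · rintro ⟨w, hw, rfl⟩
        have h2 := PPt_sub a n hw
        exact ⟨⟨w, h2, rfl⟩, (ext_fix_iff hK (emb a) (VV_tgt hK a n h2)).2 ((fix_iff a h2).2 hw)⟩
    rw [h1, InjOn.ncard_image, PPt_ncard]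
    exact e.symm.injOn.mono ((PPt_sub a n).trans (VV_tgt hK a n))

/-- the limit segment -/
noncomputable def iota (e : OpenPartialHomeomorph M (WW d)) (t : ℝ) : M := e.symm ((0, t • uu d) : WW d)

theorem lim_pts (a : Pm) {N : ℕ → ℕ} (hN : Tendsto N atTop atTop) {t : ℝ} (ht : t ∈ Icc (0:ℝ) 1)
    (hz : Tendsto (fun k => zz a (N k)) atTop (𝓝 t)) (w : ℕ → WW d) (hw : ∀ k, w k ∈ VV a (N k)) :
    Tendsto (fun k => e.symm (w k)) atTop (𝓝 (iota e t)) := by
  have he : Tendsto eta atTop (𝓝 0) := by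
    unfold eta
    exact (tendsto_pow_atTop_nhds_zero_of_lt_one (by norm_num) (by norm_num)).comp
      (tendsto_add_atTop_nat 5)
  have heN := he.comp hN
  have hx : Tendsto (fun k => xi (N k)) atTop (𝓝 0) := by
    have := heN.const_mul 12
    rw [mul_zero] at this
    exact this
  have hc : Tendsto (fun k => (ctr a (N k) : WW d)) atTop (𝓝 (0, t • uu d)) := by
    have h1 : Tendsto (fun k => zz a (N k) • uu d) atTop (𝓝 (t • uu d)) := hz.smul_const _
    exact hx.prodMk_nhds h1
  have hw' : Tendsto w atTop (𝓝 (0, t • uu d)) := by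
    refine tendsto_iff_dist_tendsto_zero.2 ?_
    have h1 := tendsto_iff_dist_tendsto_zero.1 hc
    have h2 := heN.add h1
    rw [zero_add] at h2
    refine squeeze_zero (fun _ => dist_nonneg) (fun k => ?_) h2
    refine (dist_triangle _ (ctr a (N k)) _).trans ?_
    have h3 : dist (w k) (ctr a (N k)) < eta (N k) := hw k
    exact add_le_add h3.le le_rfl
  have hmem : ((0, t • uu d) : WW d) ∈ e.target := by
    apply hK
    rw [mem_closedBall_zero_iff, Prod.norm_def]
    simp only [norm_zero, norm_smul, norm_uu, mul_one, Real.norm_eq_abs, abs_of_nonneg ht.1]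
    rw [max_le_iff]
    exact ⟨by norm_num, by linarith [ht.2]⟩
  exact (e.continuousAt_symm hmem).tendsto.comp hw'

theorem rigid {a b : Pm} (h : M ≃ₜ M)
    (hh : ∀ x, h (ext e (fP (emb a)) x) = ext e (fP (emb b)) (h x))
    {N : ℕ → ℕ} (hN : Tendsto N atTop atTop) {t t' : ℝ} (ht : t ∈ Icc (0:ℝ) 1)
    (ht' : t' ∈ Icc (0:ℝ) 1)
    (hz : Tendsto (fun k => zz a (N k)) atTop (𝓝 t))
    (hz' : Tendsto (fun k => zz b (N k)) atTop (𝓝 t')) : h (iota e t) = iota e t' := by
  have h1 := lim_pts hK a hN ht hz (fun k => ctr a (N k))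
    (fun k => Metric.mem_ball_self (eta_pos _))
  have h2 : Tendsto (fun k => h (e.symm (ctr a (N k)))) atTop (𝓝 (h (iota e t))) :=
    (h.continuous.tendsto _).comp h1
  have h3 : ∀ k, ∃ w ∈ VV (d := d) b (N k), e.symm w = h (e.symm (ctr a (N k))) := by
    intro k
    have h4 : h (e.symm (ctr a (N k))) ∈ VM e b (N k) := by
      rw [← (dec_fam hK a).image (dec_fam hK b) h hh (N k)]
      exact ⟨_, ⟨_, Metric.mem_ball_self (eta_pos _), rfl⟩, rfl⟩
    exact h4
  choose w hw hw2 using h3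
  have h5 := lim_pts hK b hN ht' hz' w hw
  have h6 : (fun k => e.symm (w k)) = fun k => h (e.symm (ctr a (N k))) := funext hw2
  rw [h6] at h5
  exact tendsto_nhds_unique h2 h5

theorem not_conj {a b : Pm} (h1 : ∀ k, zz a (2 * k + 1) = 1) (h2 : ∀ k, zz b (2 * k + 1) = 1)
    {N : ℕ → ℕ} (hN : Tendsto N atTop atTop)
    (hz : Tendsto (fun k => zz a (N k)) atTop (𝓝 0))
    (hz' : Tendsto (fun k => zz b (N k)) atTop (𝓝 1)) :
    ¬ TopConj (ext e (fP (emb a))) (ext e (fP (emb b))) := by
  rintro ⟨h, hh⟩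
  have k1 := rigid hK h hh hN (by simp) (by simp) hz hz'
  have hN2 : Tendsto (fun k : ℕ => 2 * k + 1) atTop atTop :=
    tendsto_atTop_mono (fun k => by show k ≤ 2 * k + 1; omega) tendsto_id
  have k2 := rigid hK h hh hN2 (t := 1) (t' := 1) (by simp) (by simp)
    (by simp only [h1]; exact tendsto_const_nhds) (by simp only [h2]; exact tendsto_const_nhds)
  have k3 : iota e (0:ℝ) = iota e 1 := h.injective (k1.trans k2.symm)
  have m0 : ∀ t ∈ Icc (0:ℝ) 1, ((0, t • uu d) : WW d) ∈ e.target := by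
    intro t ht
    apply hK
    rw [mem_closedBall_zero_iff, Prod.norm_def]
    simp only [norm_zero, norm_smul, norm_uu, mul_one, Real.norm_eq_abs, abs_of_nonneg ht.1]
    rw [max_le_iff]
    exact ⟨by norm_num, by linarith [ht.2]⟩
  have k4 := e.symm.injOn (m0 0 (by simp)) (m0 1 (by simp)) k3
  have k5 : (0:ℝ) • uu d = (1:ℝ) • uu d := congrArg Prod.snd k4
  rw [zero_smul, one_smul] at k5
  have k6 := norm_uu d
  rw [← k5, norm_zero] at k6
  exact zero_ne_one k6

end

end Pool.Agent.H410R3.TU
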