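import Mathlib
import Pool.Agent.H410R3.TU.Defs
import Pool.Agent.H410R3.TU.Rig2
import Pool.Agent.H468R2.KA.P_F_perm
import Pool.Agent.H468R2.KA.P_F_top
import Pool.Agent.H468R2.KA.P_F_vt
import Pool.Agent.H468R2.MA.P_T_BF
import Pool.Agent.H468R2.MA.P_T_C
import Pool.Agent.H468R2.MA.P_T_CH
import Pool.Agent.H468R2.MA.P_T_LOC
import Pool.Agent.H468R2.MA.P_T_LOC1
import Pool.Agent.H468R2.MA.P_T_SC
import Pool.Agent.H468R2.MA.P_T_GEN

/-!
# Topological conjugacy is not classifiable by countable structures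
-/

set_option linter.unusedSectionVars false

open Set Filter Topology
open scoped Manifold ContDiff

namespace Pool.Agent.H410R3.TU

open Pool.Agent.H410R3.KS (PP emb two_emb emb_continuous DiffR DiffR.map TopConj crTopology)
open Pool.Agent.Helper114.AB
open Pool.Agent.H468R2

universe u

theorem F_perm_true : KA.F_perm.{u} :=
  KA.t_F_perm KA.t_F_top (KA.t_F_vt KA.t_F_top)
    (MA.t_T_ERG (MA.t_T_C MA.t_T_SC (MA.t_T_LOC MA.t_T_SC (MA.t_T_LOC1 MA.t_T_SC))) MA.t_T_CH)

theorem permMS_eq : @borel (Equiv.Perm ℕ) sInfTopology ≤ KA.permMS := by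
  have h1 : @borel (Equiv.Perm ℕ) sInfTopology =
      (borel (ℕ → ℕ)).comap (fun (π : Equiv.Perm ℕ) (n : ℕ) => π n) := borel_comap
  rw [h1, ← BorelSpace.measurable_eq (α := ℕ → ℕ)]
  have h2 : @Measurable _ _ KA.permMS _ (fun (π : Equiv.Perm ℕ) (n : ℕ) => π n) := by
    let _ := KA.permMS
    refine measurable_pi_iff.2 fun n => ?_
    refine measurable_to_countable' fun j => ?_
    exact MeasurableSpace.measurableSet_generateFrom ⟨n, j, rfl⟩
  exact h2.comap_le

theorem action_meas {Y : Type u} [MeasurableSpace Y] [MulAction (Equiv.Perm ℕ) Y]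
    (h : IsBorelAction Y) :
    @Measurable _ _ (KA.permMS.prod inferInstance) _ (fun p : Equiv.Perm ℕ × Y => p.1 • p.2) := by
  have h1 : (@Prod.instMeasurableSpace (Equiv.Perm ℕ) Y (@borel (Equiv.Perm ℕ) sInfTopology)
      inferInstance) ≤ KA.permMS.prod inferInstance := by
    refine sup_le_sup ?_ le_rfl
    exact MeasurableSpace.comap_mono permMS_eq
  exact h.mono h1 le_rfl

/-- the parameters -/
noncomputable def prm (x : ℕ → ℝ) : Pm := fun n =>
  if Even n then ⟨(1 + Real.cos (x (n / 2))) / 2, by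
    have h1 := Real.neg_one_le_cos (x (n / 2))
    have h2 := Real.cos_le_one (x (n / 2))
    constructor <;> linarith⟩ else ⟨0, by simp⟩

theorem prm_even (x : ℕ → ℝ) (k : ℕ) : ((prm x (2 * k) : _) : ℝ) = (1 + Real.cos (x k)) / 2 := by
  unfold prm
  rw [if_pos (even_two_mul k)]
  simp

theorem prm_odd (x : ℕ → ℝ) (k : ℕ) : ((prm x (2 * k + 1) : _) : ℝ) = 0 := by
  unfold prm
  rw [if_neg (by simp)]

theorem prm_continuous : Continuous prm := by
  refine continuous_pi fun n => ?_
  unfold prm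
  by_cases h : Even n
  · simp only [h, if_true]
    refine Continuous.subtype_mk ?_ _
    fun_prop
  · simp only [h, if_false]
    exact continuous_const

theorem zeta_lip (s t : ℝ) : |zeta s - zeta t| ≤ 2 * |s - t| := by
  unfold zeta
  have h1 := Real.abs_cos_sub_cos_le (Real.pi * s) (Real.pi * t)
  rw [← mul_sub, abs_mul, abs_of_pos Real.pi_pos] at h1
  have e1 : (1 + Real.cos (Real.pi * s)) / 2 - (1 + Real.cos (Real.pi * t)) / 2 =
    (Real.cos (Real.pi * s) - Real.cos (Real.pi * t)) / 2 := by ring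
  rw [e1, abs_div, abs_two]
  have h2 := Real.pi_lt_four
  have h3 := abs_nonneg (s - t)
  nlinarith

theorem dn_even (x y : ℕ → ℝ) (k : ℕ) : |dn (prm x) (prm y) (2 * k)| ≤ |x k - y k| := by
  unfold dn zz
  rw [prm_even, prm_even, abs_sub_comm]
  refine (zeta_lip _ _).trans ?_
  have h1 := Real.abs_cos_sub_cos_le (x k) (y k)
  have e1 : (1 + Real.cos (x k)) / 2 - (1 + Real.cos (y k)) / 2 =
    (Real.cos (x k) - Real.cos (y k)) / 2 := by ring
  rw [e1, abs_div, abs_two]
  linarith

theorem dn_odd (x y : ℕ → ℝ) (k : ℕ) : dn (prm x) (prm y) (2 * k + 1) = 0 := by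
  unfold dn zz
  rw [prm_odd, prm_odd, sub_self]

theorem dn_summable {x y : ℕ → ℝ} (h : Summable fun n => |x n - y n|) :
    Summable fun n => |dn (prm x) (prm y) n| := by
  have h1 : Summable fun k => |dn (prm x) (prm y) (2 * k)| :=
    Summable.of_nonneg_of_le (fun _ => abs_nonneg _) (dn_even x y) h
  have h2 : Summable fun k => |dn (prm x) (prm y) (2 * k + 1)| := by
    simp only [dn_odd, abs_zero]
    exact summable_zero
  exact Summable.even_add_odd (f := fun n => |dn (prm x) (prm y) n|) h1 h2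

theorem zz_odd (x : ℕ → ℝ) (k : ℕ) : zz (prm x) (2 * k + 1) = 1 := by
  unfold zz
  rw [prm_odd]
  unfold zeta
  simp

theorem zz_even (x : ℕ → ℝ) (k : ℕ) :
    zz (prm x) (2 * k) = zeta ((1 + Real.cos (x k)) / 2) := by
  unfold zz
  rw [prm_even]

theorem main {E H : Type} [NormedAddCommGroup E] [NormedSpace ℝ E] [FiniteDimensional ℝ E]
    [TopologicalSpace H] (I : ModelWithCorners ℝ E H) [I.Boundaryless]
    (M : Type) [TopologicalSpace M] [ChartedSpace H M] [IsManifold I ∞ M] [T2Space M]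
    [CompactSpace M] [Nonempty M] (hdim : 2 ≤ Module.finrank ℝ E)
    (Y : Type u) [MeasurableSpace Y] [StandardBorelSpace Y] [MulAction (Equiv.Perm ℕ) Y]
    (hY : IsBorelAction Y) : ¬ ReducesToOrbits I M Y := by
  rintro ⟨φ, hφ, hred⟩
  obtain ⟨x0⟩ := ‹Nonempty M›
  set d : ℕ := Module.finrank ℝ E - 2 with hd
  have hfin : Module.finrank ℝ E = Module.finrank ℝ (WW d) := by
    rw [Module.finrank_prod, Module.finrank_self, finrank_euclideanSpace, Fintype.card_fin]
    omega
  obtain ⟨e, hK, hs1, hs2⟩ := exists_chart (I := I) (W := WW d) x0 hfin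
  let Φ : (ℕ → ℝ) → DiffR I M ⊤ := fun x => dM hK hs1 hs2 (emb (prm x))
  have hΦ : @Measurable (ℕ → ℝ) (DiffR I M ⊤) _ (@borel (DiffR I M ⊤) (crTopology I M ⊤)) Φ := by
    let _ : TopologicalSpace (DiffR I M ⊤) := crTopology I M ⊤
    let _ : MeasurableSpace (DiffR I M ⊤) := borel _
    have : BorelSpace (DiffR I M ⊤) := ⟨rfl⟩
    have h1 : Continuous Φ :=
      (dM_continuous (I := I) hK hs1 hs2).comp (emb_continuous.comp prm_continuous)
    exact h1.measurable
  have hf : Measurable (fun x => φ (Φ x)) := hφ.comp hΦ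
  obtain ⟨C, hC, hC2⟩ := F_perm_true Y (action_meas hY) (fun x => φ (Φ x)) hf
    (fun x y hxy => (hred _ _).1 (dM_conj hK hs1 hs2 (prm x) (prm y) (dn_summable hxy)))
  obtain ⟨x, hx, y, hy, hg⟩ := MA.t_T_GEN C hC
  have h1 : TopConj (Φ x).map (Φ y).map := (hred _ _).2 (hC2 x hx y hy)
  choose K hK1 hK2 hK3 using hg
  have hN : Tendsto (fun k => 2 * K k) atTop atTop :=
    tendsto_atTop_mono (fun k => by have := hK1 k; show k ≤ 2 * K k; omega) tendsto_id
  have hz : Tendsto (fun N : ℕ => 1 / ((N:ℝ) + 1)) atTop (𝓝 0) := tendsto_one_div_add_atTop_nhds_zero_nat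
  have hxl : Tendsto (fun k => x (K k)) atTop (𝓝 0) := by
    refine squeeze_zero_norm (fun k => ?_) hz
    exact hK2 k
  have hyl : Tendsto (fun k => y (K k)) atTop (𝓝 Real.pi) := by
    rw [tendsto_iff_norm_sub_tendsto_zero]
    exact squeeze_zero (fun _ => norm_nonneg _) (fun k => hK3 k) hz
  have hc : Continuous (fun s : ℝ => zeta ((1 + Real.cos s) / 2)) :=
    zeta_contDiff.continuous.comp (by fun_prop)
  have hzx : Tendsto (fun k => zz (prm x) (2 * K k)) atTop (𝓝 0) := by
    simp only [zz_even]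
    have h2 := (hc.tendsto 0).comp hxl
    have e1 : zeta ((1 + Real.cos 0) / 2) = 0 := by
      unfold zeta; norm_num
    rw [e1] at h2
    exact h2
  have hzy : Tendsto (fun k => zz (prm y) (2 * K k)) atTop (𝓝 1) := by
    simp only [zz_even]
    have h2 := (hc.tendsto Real.pi).comp hyl
    have e1 : zeta ((1 + Real.cos Real.pi) / 2) = 1 := by
      unfold zeta; norm_num
    rw [e1] at h2
    exact h2
  exact not_conj hK (zz_odd x) (zz_odd y) hN hzx hzy h1

end Pool.Agent.H410R3.TU
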